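import Pool.Agent.Run7.h98.CX.Defs

/-!
# Direct summands in one degree, rational direct summands
-/

open CategoryTheory AlgebraicGeometry Filter

set_option autoImplicit false

universe u v

namespace Pool.Agent.Run7.H98.CR

open Pool.Agent.H914 VarClass Obj WeilCohomology Pool.Agent.N103.OC Pool.Agent.Run7.H98.CX

/-- `e` is an idempotent in the set `S` of operators, and for all `i` the component of `e` in the
degree `i` (the operator which is `e` on `gr i` and zero on `gr j` for `j ≠ i`) is in `S`. -/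
def GradedSummand {K : Type*} {V : Type*} [Field K] [AddCommGroup V] [Module K V]
    (gr : ℕ → Submodule K V) (S : Set (V →ₗ[K] V)) (e : Module.End K V) : Prop :=
  e ∈ S ∧ e * e = e ∧ ∀ i, ∃ p ∈ S, ∀ j, ∀ x ∈ gr j, p x = if j = i then e x else 0

/-- `e` is an idempotent in the set `S` of operators which acts in one degree only: there is `m` such
that `e` is zero on `gr j` for all `j ≠ m`. -/
def OneDegreeSummand {K : Type*} {V : Type*} [Field K] [AddCommGroup V] [Module K V]
    (gr : ℕ → Submodule K V) (S : Set (V →ₗ[K] V)) (e : Module.End K V) : Prop :=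
  e ∈ S ∧ e * e = e ∧ ∃ m, ∀ j, j ≠ m → ∀ x ∈ gr j, e x = 0

/-- `e` is an idempotent linear combination of the operators in `S` which acts in one degree
only. -/
def OneDegreeCombination {K : Type*} {V : Type*} [Field K] [AddCommGroup V] [Module K V]
    (gr : ℕ → Submodule K V) (S : Set (V →ₗ[K] V)) (e : Module.End K V) : Prop :=
  OneDegreeSummand gr (Submodule.span K S) e

/-- The largest rank of an operator with the property `P`. -/
noncomputable def largestRank {K : Type*} {V : Type*} [Field K] [AddCommGroup V] [Module K V]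
    (P : Module.End K V → Prop) : ℕ :=
  sSup {r | ∃ e, P e ∧ r = Module.finrank K (LinearMap.range e)}

variable {k : Type u} [Field k] {𝒱 : VarClass k} {ops : CycleOps 𝒱}

/-- There is a zero-cycle on `X` of degree different from zero. -/
def HasPoint (X : 𝒱.Obj) : Prop := ∃ z, X.IsCyc X.dim z ∧ X.V.degCycle z ≠ 0

/-- The largest Betti number of `Y`. -/
noncomputable def maxBetti (W : WeilCohomology.{u, v} ops) (Y : 𝒱.Obj) : ℕ :=
  (Finset.range (2 * Y.dim + 1)).sup (W.betti Y)

/-- The largest rank of a direct summand `(Y, e)` of the motive of `Y` (modulo homological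
equivalence, rational coefficients) for which the Kunneth standard conjecture is true. -/
noncomputable def rationalDim (W : WeilCohomology.{u, v} ops) (Y : 𝒱.Obj) : ℕ :=
  largestRank (GradedSummand (W.gr Y) (cycleOps W Y))

/-- The largest rank of a direct summand `(Y, e)` of the motive of `Y` (modulo homological
equivalence, rational coefficients) whose cohomology is in one degree only. -/
noncomputable def oneDegreeDim (W : WeilCohomology.{u, v} ops) (Y : 𝒱.Obj) : ℕ :=
  largestRank (OneDegreeSummand (W.gr Y) (cycleOps W Y))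

/-- The largest rank of a direct summand `(Y, e)` of the motive of `Y` (modulo homological
equivalence, with coefficients in `K`) whose cohomology is in one degree only. -/
noncomputable def oneDegreeDimK (W : WeilCohomology.{u, v} ops) (Y : 𝒱.Obj) : ℕ :=
  largestRank (OneDegreeCombination (W.gr Y) (cycleOps W Y))

/-- The laws for `b(Y)`, the sum of the Betti numbers, a number `c(Y)` and a property `C(Y)` of the
varieties `Y`:
* if `C(X)` is false then `c(X^n) ≤ b(X)^n √(b(X) / (2 (n + 1)))` for all `n ≥ 1`;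
* `C(X)` is true if and only if there is `ε > 0` such that `c(X^n) ≥ ε b(X^n)` for infinitely
  many `n`;
* `C(X)` is true for all `X` if and only if there is a slow function `f` such that
  `c(Y) ≥ f(b(Y)) b(Y)` for all `Y`. -/
def ShareLaws (W : WeilCohomology.{u, v} ops) (c : 𝒱.Obj → ℕ) (C : 𝒱.Obj → Prop) : Prop :=
  (∀ X : 𝒱.Obj, ¬ C X → ∀ n ≥ 1, 2 * (n + 1) * c (pw X n) ^ 2 ≤ cohDim W X ^ (2 * n + 1)) ∧
  (∀ X : 𝒱.Obj, C X ↔ ∃ ε : ℝ, 0 < ε ∧
    ∃ᶠ n in atTop, ε * cohDim W (pw X n) ≤ c (pw X n)) ∧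
  ((∀ X : 𝒱.Obj, C X) ↔ ∃ f, IsSlow f ∧ ∀ Y : 𝒱.Obj, f (cohDim W Y) * cohDim W Y ≤ c Y)

/-- The laws for `b(Y)`, the largest Betti number `β(Y)`, a number `c(Y)` and a property `C(Y)`:
* if `C(X)` is false and `X` has a zero-cycle of degree different from zero then
  `c(X^n) ≤ b(X)^(n + 1) / (2 (n + 1))` for all `n ≥ 1`;
* if `X` has such a zero-cycle, then `C(X)` is true if and only if there is `ε > 0` such that
  `c(X^n) ≥ ε β(X^n)` for infinitely many `n`;
* if all `X` have such a zero-cycle, then `C(X)` is true for all `X` if and only if there is a slow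
  function `f` such that `c(Y) ≥ f(b(Y)) β(Y)` for all `Y`. -/
def DegreeLaws (W : WeilCohomology.{u, v} ops) (c : 𝒱.Obj → ℕ) (C : 𝒱.Obj → Prop) : Prop :=
  (∀ X : 𝒱.Obj, HasPoint X → ¬ C X → ∀ n ≥ 1, 2 * (n + 1) * c (pw X n) ≤ cohDim W X ^ (n + 1)) ∧
  (∀ X : 𝒱.Obj, HasPoint X → (C X ↔ ∃ ε : ℝ, 0 < ε ∧
    ∃ᶠ n in atTop, ε * maxBetti W (pw X n) ≤ c (pw X n))) ∧
  ((∀ X : 𝒱.Obj, HasPoint X) → ((∀ X : 𝒱.Obj, C X) ↔
    ∃ f, IsSlow f ∧ ∀ Y : 𝒱.Obj, f (cohDim W Y) * maxBetti W Y ≤ c Y))

end Pool.Agent.Run7.H98.CR
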