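import Pool.Agent.Run7.h98.CX.Laws
import Pool.Agent.Run7.h98.CR.Defs
import Pool.Agent.N132.OS.Betti
import Pool.Agent.Run7.h604.PL.Cnt

/-!
# The largest Betti number of a power
-/

set_option autoImplicit false

open CategoryTheory AlgebraicGeometry Finset TensorProduct Module

universe u v

namespace Pool.Agent.Run7.H98.CR

open Pool.Agent.H914 VarClass Obj WeilCohomology Pool.Agent.N190.CB Pool.Agent.N103.OC
  Pool.Agent.N536.HK Pool.Agent.Run7.H98.CX

variable {k : Type u} [Field k] {𝒱 : VarClass k} {ops : CycleOps 𝒱}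
  {W : WeilCohomology.{u, v} ops} {X Y Z : 𝒱.Obj}

lemma sum_antidiag (a c m : ℕ) : ∑ p ∈ HasAntidiagonal.antidiagonal m,
    (if a = p.1 then 1 else 0) * (if c = p.2 then 1 else 0) = if a + c = m then 1 else 0 := by
  have h1 : ∀ p ∈ HasAntidiagonal.antidiagonal m,
      (if a = p.1 then 1 else 0) * (if c = p.2 then 1 else 0) = if (a, c) = p then 1 else 0 := by
    rintro ⟨p, q⟩ _
    simp only [Prod.mk.injEq]
    split_ifs <;> simp_all
  rw [sum_congr rfl h1, sum_ite_eq]
  simp only [HasAntidiagonal.mem_antidiagonal]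

/-- The Betti numbers of the powers. -/
theorem betti_words (W : WeilCohomology.{u, v} ops) (X : 𝒱.Obj) :
    ∃ (N : ℕ) (δ : Fin N → ℕ), N = cohDim W X ∧
      (∀ m, W.betti X m = (univ.filter fun s => δ s = m).card) ∧
      ∀ n m, W.betti (pw X (n + 1)) m =
        (univ.filter fun g : Fin (n + 1) → Fin N => ∑ k, δ (g k) = m).card := by
  classical
  obtain ⟨N, b, δ, hb⟩ := Pool.Agent.N132.OS.exists_basis W X
  have h0 : ∀ m, W.betti X m = (univ.filter fun s => δ s = m).card := by
    intro m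
    rw [WeilCohomology.betti, Pool.Agent.N132.OS.finrank_of_basis (W.isInternal X) b δ hb m,
      Fintype.card_subtype]
  refine ⟨N, δ, ?_, h0, fun n => ?_⟩
  · rw [cohDim, Module.finrank_eq_card_basis b, Fintype.card_fin]
  induction n with
  | zero =>
    intro m
    have e1 : pw X (0 + 1) = X := rfl
    rw [e1, h0, card_filter, card_filter, ← (Equiv.funUnique (Fin 1) (Fin N)).sum_comp]
    refine sum_congr rfl fun g _ => ?_
    rw [Fin.sum_univ_one]
    rfl
  | succ n ih =>
    intro m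
    have e1 : pw X (n + 1 + 1) = (pw X (n + 1)).prod X := rfl
    rw [e1, Pool.Agent.N132.OS.betti_prod, card_filter,
      ← (Fin.consEquiv (fun _ : Fin (n + 2) => Fin N)).sum_comp, Fintype.sum_prod_type_right]
    have e2 : ∀ (g : Fin (n + 1) → Fin N) (x : Fin N),
        ∑ k, δ ((Fin.consEquiv (fun _ : Fin (n + 2) => Fin N)) (x, g) k) =
          ∑ k, δ (g k) + δ x := by
      intro g x
      rw [Fin.sum_univ_succ]
      simp [Fin.consEquiv, add_comm]
    have e3 : ∀ (g : Fin (n + 1) → Fin N) (x : Fin N),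
        (if ∑ k, δ ((Fin.consEquiv (fun _ : Fin (n + 2) => Fin N)) (x, g) k) = m then 1 else 0) =
        ∑ p ∈ HasAntidiagonal.antidiagonal m, (if ∑ k, δ (g k) = p.1 then 1 else 0) *
          (if δ x = p.2 then 1 else 0) := by
      intro g x
      rw [e2, sum_antidiag]
    rw [sum_congr rfl fun g _ => sum_congr rfl fun x _ => e3 g x]
    rw [sum_congr rfl fun g _ => sum_comm, sum_comm]
    refine sum_congr rfl fun p _ => ?_
    rw [ih, h0, card_filter, card_filter, sum_mul_sum]

lemma betti_le_max (W : WeilCohomology.{u, v} ops) (Y : 𝒱.Obj) (m : ℕ) :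
    W.betti Y m ≤ maxBetti W Y := by
  by_cases hm : m ∈ range (2 * Y.dim + 1)
  · exact Finset.le_sup (f := W.betti Y) hm
  · have h1 : W.gr Y m = ⊥ := W_hbd (X := Y) m (by rw [mem_range] at hm; omega)
    rw [WeilCohomology.betti, h1, finrank_bot]
    exact Nat.zero_le _

/-- **The lower bound for the largest Betti number.** -/
theorem maxBetti_lower (W : WeilCohomology.{u, v} ops) (X : 𝒱.Obj) (n : ℕ) :
    9 * (cohDim W X : ℝ) ^ (n + 1) ≤
      16 * (4 * X.dim * √((n : ℝ) + 1) + 1) * (maxBetti W (pw X (n + 1)) : ℝ) := by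
  classical
  obtain ⟨N, δ, hN, h1, h2⟩ := betti_words W X
  have hδ : ∀ s, δ s ≤ 2 * X.dim := by
    intro s
    by_contra hcon
    have h3 := h1 (δ s)
    have h4 : W.gr X (δ s) = ⊥ := W_hbd (X := X) _ (by omega)
    rw [WeilCohomology.betti, h4, finrank_bot] at h3
    have h5 := Finset.card_eq_zero.1 h3.symm
    have h6 : s ∈ univ.filter fun s' => δ s' = δ s := mem_filter.2 ⟨mem_univ _, rfl⟩
    rw [h5] at h6
    exact absurd h6 (notMem_empty _)
  have h3 := Run7.h604.PL.equal_pairs δ (2 * X.dim) hδ (n + 1)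
  have h4 : (Run7.h604.PL.equalPairs δ (n + 1)).card ≤
      N ^ (n + 1) * maxBetti W (pw X (n + 1)) := by
    rw [Run7.h604.PL.equalPairs, card_filter, Fintype.sum_prod_type]
    calc ∑ g : Fin (n + 1) → Fin N, ∑ g' : Fin (n + 1) → Fin N,
          (if ∑ i, δ (g i) = ∑ i, δ (g' i) then 1 else 0)
        ≤ ∑ g : Fin (n + 1) → Fin N, maxBetti W (pw X (n + 1)) := by
          refine sum_le_sum fun g _ => ?_
          rw [← card_filter]
          have h5 := betti_le_max W (pw X (n + 1)) (∑ i, δ (g i))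
          rw [h2] at h5
          refine le_trans (le_of_eq ?_) h5
          congr 1
          ext g'
          simp only [mem_filter, mem_univ, true_and]
          exact eq_comm
      _ = _ := by
          rw [sum_const, card_univ, Fintype.card_fun, Fintype.card_fin, Fintype.card_fin,
            smul_eq_mul]
  have h5 : ((Run7.h604.PL.equalPairs δ (n + 1)).card : ℝ) ≤
      (N : ℝ) ^ (n + 1) * (maxBetti W (pw X (n + 1)) : ℝ) := by exact_mod_cast h4
  rw [← hN]
  rcases Nat.eq_zero_or_pos N with h0 | h0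
  · rw [h0, Nat.cast_zero, zero_pow (Nat.succ_ne_zero n), mul_zero]
    positivity
  · have h6 : (0 : ℝ) < (N : ℝ) ^ (n + 1) := by positivity
    push_cast at h3
    have h7 : (9 * (N : ℝ) ^ (n + 1)) * (N : ℝ) ^ (n + 1) ≤
        (16 * (4 * X.dim * √((n : ℝ) + 1) + 1) * (maxBetti W (pw X (n + 1)) : ℝ)) *
          (N : ℝ) ^ (n + 1) := by
      calc (9 * (N : ℝ) ^ (n + 1)) * (N : ℝ) ^ (n + 1)
          = 9 * ((N : ℝ) ^ (n + 1)) ^ 2 := by ring
        _ ≤ 16 * (2 * (2 * (X.dim : ℝ)) * √((n : ℝ) + 1) + 1) *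
            ((Run7.h604.PL.equalPairs δ (n + 1)).card : ℝ) := h3
        _ ≤ 16 * (2 * (2 * (X.dim : ℝ)) * √((n : ℝ) + 1) + 1) *
            ((N : ℝ) ^ (n + 1) * (maxBetti W (pw X (n + 1)) : ℝ)) := by gcongr
        _ = _ := by ring
    exact le_of_mul_le_mul_right h7 h6

end Pool.Agent.Run7.H98.CR
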