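import Pool.Agent.Run7.h98.CX.Lin

/-!
# Rational linear forms given by a trace form
-/

set_option autoImplicit false

open Polynomial Module

namespace Pool.Agent.Run7.H98.CR

variable {K : Type*} {V : Type*} [Field K] [CharZero K] [AddCommGroup V] [Module K V]

lemma exists_lam (K : Type*) [Field K] [CharZero K] :
    ∃ lam : K →ₗ[ℚ] ℚ, ∀ q : ℚ, lam (q : K) = q := by
  obtain ⟨g, hg⟩ := LinearMap.exists_leftInverse_of_injective (Algebra.linearMap ℚ K)
    (LinearMap.ker_eq_bot.2 (algebraMap ℚ K).injective)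
  refine ⟨g, fun q => ?_⟩
  have h1 := congrArg (fun F : ℚ →ₗ[ℚ] ℚ => F q) hg
  simp only [LinearMap.comp_apply, Algebra.linearMap_apply, LinearMap.id_apply, eq_ratCast] at h1
  exact h1

lemma lam_mul (lam : K →ₗ[ℚ] ℚ) (q : ℚ) (r : K) : lam ((q : K) * r) = q * lam r := by
  have h1 : (q : K) * r = q • r := by rw [Algebra.smul_def, eq_ratCast]
  rw [h1, map_smul, smul_eq_mul]

variable [FiniteDimensional K V]

/-- A rational linear form which vanishes on the radical of the form is represented. -/
lemma exists_rep_rat (A : Set (Module.End K V)) (h0 : (0 : Module.End K V) ∈ A)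
    (hadd : ∀ a ∈ A, ∀ b ∈ A, a + b ∈ A) (hsmul : ∀ q : ℚ, ∀ a ∈ A, (q : K) • a ∈ A)
    (s : Module.End K V →ₗ[K] K) (hs : ∀ a ∈ A, ∀ b ∈ A, ∃ q : ℚ, s (a * b) = q)
    (lam : K →ₗ[ℚ] ℚ) (hlam : ∀ q : ℚ, lam (q : K) = q) (d : Module.End K V)
    (h : ∀ x ∈ A, (∀ c ∈ A, s (x * c) = 0) → s (x * d) = 0) :
    ∃ C ∈ A, ∀ x ∈ A, ((lam (s (x * d)) : ℚ) : K) = s (x * C) := by
  letI : Module ℚ (Module.End K V) := Module.compHom _ (algebraMap ℚ K)
  have hq : ∀ (q : ℚ) (a : Module.End K V), q • a = (q : K) • a := fun q a => by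
    show (algebraMap ℚ K q) • a = _
    rw [eq_ratCast]
  let A' : Submodule ℚ (Module.End K V) :=
    { carrier := A
      zero_mem' := h0
      add_mem' := fun {a b} ha hb => hadd a ha b hb
      smul_mem' := fun q a ha => by rw [hq]; exact hsmul q a ha }
  obtain ⟨b, hbA, hspan, hli⟩ := exists_linearIndependent K A
  have hfin : b.Finite := hli.setFinite
  have hF : Fintype b := hfin.fintype
  let L : b → (A' →ₗ[ℚ] ℚ) := fun y =>
    { toFun := fun x => lam (s (x.1 * y.1))
      map_add' := fun x x' => by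
        rw [Submodule.coe_add, add_mul, map_add, map_add]
      map_smul' := fun q x => by
        rw [Submodule.coe_smul, hq, smul_mul_assoc, map_smul, smul_eq_mul, lam_mul]
        rfl }
  let φ : A' →ₗ[ℚ] ℚ :=
    { toFun := fun x => lam (s (x.1 * d))
      map_add' := fun x x' => by
        rw [Submodule.coe_add, add_mul, map_add, map_add]
      map_smul' := fun q x => by
        rw [Submodule.coe_smul, hq, smul_mul_assoc, map_smul, smul_eq_mul, lam_mul]
        rfl }
  have h1 : φ ∈ Submodule.span ℚ (Set.range L) := by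
    apply mem_span_of_iInf_ker_le_ker
    intro x hx
    rw [LinearMap.mem_ker]
    show lam (s (x.1 * d)) = 0
    have h2 : ∀ y ∈ b, s (x.1 * y) = 0 := by
      intro y hy
      obtain ⟨q, hq1⟩ := hs x.1 x.2 y (hbA hy)
      have h3 : L ⟨y, hy⟩ x = 0 := (Submodule.mem_iInf _).1 hx ⟨y, hy⟩
      have h4 : lam (s (x.1 * y)) = 0 := h3
      rw [hq1, hlam] at h4
      rw [hq1, h4, Rat.cast_zero]
    have h3 : ∀ y ∈ Submodule.span K b, s (x.1 * y) = 0 := by
      intro y hy
      induction hy using Submodule.span_induction with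
      | mem y hy => exact h2 y hy
      | zero => rw [mul_zero, map_zero]
      | add y z _ _ hy hz => rw [mul_add, map_add, hy, hz, add_zero]
      | smul r y _ hy => rw [mul_smul_comm, map_smul, hy, smul_zero]
    rw [h x.1 x.2 fun c hc => h3 c (by rw [hspan]; exact Submodule.subset_span hc), map_zero]
  obtain ⟨c, hc⟩ := (Submodule.mem_span_range_iff_exists_fun ℚ).1 h1
  have hsum : ∀ t : Finset b, ∑ y ∈ t, (c y : K) • (y : Module.End K V) ∈ A := by
    classical
    intro t
    induction t using Finset.induction_on with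
    | empty => rw [Finset.sum_empty]; exact h0
    | insert y t hy ih =>
      rw [Finset.sum_insert hy]
      exact hadd _ (hsmul _ _ (hbA y.2)) _ ih
  refine ⟨∑ y, (c y : K) • (y : Module.End K V), hsum _, fun x hx => ?_⟩
  have h4 := congrArg (fun F : A' →ₗ[ℚ] ℚ => F ⟨x, hx⟩) hc
  simp only [LinearMap.sum_apply, LinearMap.smul_apply] at h4
  have h5 : lam (s (x * d)) = ∑ y : b, c y • lam (s (x * y.1)) := h4.symm
  rw [h5, Finset.mul_sum, map_sum, Rat.cast_sum]
  refine Finset.sum_congr rfl fun y _ => ?_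
  obtain ⟨q, hq1⟩ := hs x hx y.1 (hbA y.2)
  rw [mul_smul_comm, map_smul, hq1, hlam, smul_eq_mul, smul_eq_mul, Rat.cast_mul]

omit [CharZero K] in
/-- Products with elements of a span. -/
lemma span_mul_mem {S : Set (Module.End K V)} {D : Module.End K V}
    (h : ∀ a ∈ S, a * D ∈ Submodule.span K S) :
    ∀ a ∈ Submodule.span K S, a * D ∈ Submodule.span K S := by
  intro a ha
  induction ha using Submodule.span_induction with
  | mem a ha => exact h a ha
  | zero => rw [zero_mul]; exact Submodule.zero_mem _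
  | add a b _ _ ha hb => rw [add_mul]; exact Submodule.add_mem _ ha hb
  | smul r a _ ha => rw [smul_mul_assoc]; exact Submodule.smul_mem _ _ ha

omit [CharZero K] [FiniteDimensional K V] in
lemma span_trace_zero {S : Set (Module.End K V)} {D : Module.End K V}
    (h : ∀ a ∈ S, LinearMap.trace K V (D * a) = 0) :
    ∀ a ∈ Submodule.span K S, LinearMap.trace K V (D * a) = 0 := by
  intro a ha
  induction ha using Submodule.span_induction with
  | mem a ha => exact h a ha
  | zero => rw [mul_zero, map_zero]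
  | add a b _ _ ha hb => rw [mul_add, map_add, ha, hb, add_zero]
  | smul r a _ ha => rw [mul_smul_comm, map_smul, ha, smul_zero]

end Pool.Agent.Run7.H98.CR
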