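import Pool.Agent.Run7.h98.CX.Main
import Pool.Agent.Run7.h98.CR.Lin

/-!
# Rational cycles and combinations of cycles: the common properties
-/

set_option autoImplicit false

open CategoryTheory AlgebraicGeometry Finset TensorProduct Module

universe u v

namespace Pool.Agent.Run7.H98.CR

open Pool.Agent.H914 VarClass Obj WeilCohomology Pool.Agent.N190.CB Pool.Agent.N103.OC
  Pool.Agent.N536.HK Pool.Agent.Run7.H98.CX

variable {k : Type u} [Field k] {𝒱 : VarClass k} {ops : CycleOps 𝒱}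
  {W : WeilCohomology.{u, v} ops} {X Y Z : 𝒱.Obj}

/-- A class of operators, a projection `lam` onto the possible supertraces. -/
structure Good (W : WeilCohomology.{u, v} ops) (Op : ∀ X : 𝒱.Obj, Set (Module.End W.K (W.H X)))
    (lam : W.K →+ W.K) : Prop where
  cls : OpClass W Op
  kop : ∀ {X : 𝒱.Obj} {a : Module.End W.K (W.H X)}, a ∈ Op X → a ∈ KOp W X X 0
  span : ∀ X : 𝒱.Obj, KOp W X X 0 ≤ Submodule.span W.K (Op X)
  lam_str : ∀ {X : 𝒱.Obj} {a : Module.End W.K (W.H X)}, a ∈ Op X → lam (str W X a) = str W X a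
  contr1 : ∀ {Y X : 𝒱.Obj} {A : Module.End W.K (W.H (Y.prod X))}, A ∈ Op (Y.prod X) →
    ∃ T ∈ Op X, ∀ F : Module.End W.K (W.H X), (∀ i, ∀ x ∈ W.gr X i, F x ∈ W.gr X i) →
      str W (Y.prod X) (A * extOp W 1 F) = str W X (T * F)
  rep : ∀ (X : 𝒱.Obj) (d : Module.End W.K (W.H X)),
    (∀ x ∈ Op X, (∀ c ∈ Op X, str W X (x * c) = 0) → str W X (x * d) = 0) →
      ∃ C ∈ Op X, ∀ x ∈ Op X, lam (str W X (x * d)) = str W X (x * C)

/-- The combinations of cycles with coefficients in `K`. -/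
theorem good_kop (W : WeilCohomology.{u, v} ops) :
    Good W (fun X => (KOp W X X 0 : Set (Module.End W.K (W.H X)))) (AddMonoidHom.id W.K) where
  cls := kop_class W
  kop := fun ha => ha
  span := fun X => by
    rw [Submodule.span_eq]
  lam_str := fun _ => rfl
  contr1 := fun {Y X A} hA => ptrace1 hA (kop_one Y)
  rep := fun X d h => by
    obtain ⟨C, hC, h1⟩ := exists_rep (KOp W X X 0) (str W X)
      (str W X ∘ₗ LinearMap.mulRight W.K d) h
    exact ⟨C, hC, fun x hx => (h1 x hx).symm⟩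

lemma span_ratOp (X : 𝒱.Obj) : KOp W X X 0 ≤ Submodule.span W.K (ratOp W X) := by
  rw [KOp]
  apply Submodule.span_mono
  rintro φ ⟨p, hp, z, hz, rfl⟩
  obtain rfl : p = X.dim := by omega
  exact ⟨z, hz, rfl⟩

lemma ratOp_kop {a : Module.End W.K (W.H X)} (ha : a ∈ ratOp W X) : a ∈ KOp W X X 0 := by
  obtain ⟨z, hz, rfl⟩ := ha
  exact KOp.gen (by simp) hz

/-- The supertrace of a rational cycle is a rational number. -/
lemma str_ratOp {a : Module.End W.K (W.H X)} (ha : a ∈ ratOp W X) :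
    ∃ q : ℚ, str W X a = (q : W.K) := by
  obtain ⟨w, hw, hw1⟩ := (rat_class W).one X
  obtain ⟨z, hz, rfl⟩ := ha
  have hz' : (X.prod X).IsCyc (X.prod X).dim (ops.mul z (ops.pull (swap X X) w)) :=
    ops.mul_mem hz (ops.pull_mem _ hw)
  refine ⟨(X.prod X).V.degCycle (ops.mul z (ops.pull (swap X X) w)), ?_⟩
  rw [← W.tr_cl hz', W.cl_mul, W.cl_pull, ← str_corr_mul (W.cl_mem hz), hw1, mul_one]

lemma rat_add {a b : Module.End W.K (W.H X)} (ha : a ∈ ratOp W X) (hb : b ∈ ratOp W X) :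
    a + b ∈ ratOp W X := (rat_class W).add ha hb

lemma rat_contr1 {A : Module.End W.K (W.H (Y.prod X))} (hA : A ∈ ratOp W (Y.prod X)) :
    ∃ T ∈ ratOp W X, ∀ F : Module.End W.K (W.H X), (∀ i, ∀ x ∈ W.gr X i, F x ∈ W.gr X i) →
      str W (Y.prod X) (A * extOp W 1 F) = str W X (T * F) := by
  obtain ⟨z, hz, rfl⟩ := hA
  obtain ⟨w, hw, hw1⟩ := (rat_class W).one Y
  have hcyc : ((Y.prod X).prod (Y.prod X)).IsCyc ((Y.prod X).dim + Y.dim)
      (ops.mul z (ops.pull (q1 Y X) (ops.pull (swap Y Y) w))) :=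
    ops.mul_mem hz (ops.pull_mem _ (ops.pull_mem _ hw))
  have hpush := ops.push_mem (q2 Y X) (q := X.dim) hcyc
    (by simp only [dim_prod]; omega)
  refine ⟨_, ⟨_, hpush, rfl⟩, fun F hF => ?_⟩
  obtain ⟨g, hg, rfl⟩ := exists_class hF
  rw [← hw1, W.cl_push, W.cl_mul, W.cl_pull, W.cl_pull]
  exact str_ext_right (W.cl_mem hz) (W.cl_mem hw) hg (m := X.dim)
    (by simp only [dim_prod]; omega)

/-- The rational cycles. -/
theorem good_rat (W : WeilCohomology.{u, v} ops) :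
    ∃ lam : W.K →+ W.K, Good W (ratOp W) lam := by
  obtain ⟨lam, hlam⟩ := exists_lam W.K
  refine ⟨((algebraMap ℚ W.K : ℚ →+* W.K) : ℚ →+ W.K).comp lam.toAddMonoidHom, ?_⟩
  have hl : ∀ r : W.K, (((algebraMap ℚ W.K : ℚ →+* W.K) : ℚ →+ W.K).comp lam.toAddMonoidHom) r =
      ((lam r : ℚ) : W.K) := fun r => by
    show algebraMap ℚ W.K (lam r) = _
    rw [eq_ratCast]
  exact {
    cls := rat_class W
    kop := ratOp_kop
    span := span_ratOp
    lam_str := fun ha => by
      obtain ⟨q, hq⟩ := str_ratOp ha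
      rw [hl, hq, hlam]
    contr1 := rat_contr1
    rep := fun X d h => by
      obtain ⟨C, hC, h1⟩ := exists_rep_rat (ratOp W X) ((rat_class W).zero X)
        (fun a ha b hb => (rat_class W).add ha hb) (fun q a ha => (rat_class W).smul q ha)
        (str W X) (fun a ha b hb => str_ratOp ((rat_class W).mul ha hb)) lam hlam d h
      exact ⟨C, hC, fun x hx => (hl _).trans (h1 x hx)⟩ }

end Pool.Agent.Run7.H98.CR
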