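import Pool.Agent.Run7.h634.WZ.Walk

/-!
# Words with three letters in general position
-/

set_option autoImplicit false

open Finset

namespace Pool.Agent.Run7.H98.CR

open Pool.Agent.Run7.H634.WZ

/-! ### Trinomial coefficients -/

theorem choose_two_pow_le (n c : ℕ) (hc : c ≤ n) :
    n.choose c * 2 ^ (n - c) ≤ ∑ m ∈ range (n + 1), n.choose m * (m.choose (m / 2) * 1) := by
  have h1 : n.choose c * 2 ^ (n - c) =
      ∑ l ∈ range (n - c + 1), n.choose (c + l) * (c + l).choose c := by
    rw [← Nat.sum_range_choose, mul_sum]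
    apply sum_congr rfl
    intro l hl
    rw [mem_range] at hl
    rw [Nat.choose_mul (by omega), Nat.add_sub_cancel_left]
  have h2 := sum_range_add (fun m => n.choose m * (m.choose (m / 2) * 1)) c (n - c + 1)
  rw [h1, show n + 1 = c + (n - c + 1) by omega, h2]
  refine le_trans ?_ (Nat.le_add_left _ _)
  apply sum_le_sum
  intro l _
  rw [mul_one]
  exact Nat.mul_le_mul_left _ (Nat.choose_le_middle _ _)

theorem two_pow_bound (n c : ℕ) (hc : c ≤ n) :
    2 * (n + 1) * (n.choose c * 2 ^ (n - c)) ^ 2 ≤ 3 ^ (2 * n + 1) := by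
  have h1 := sum_bound (b := 3) (by norm_num) n
  have h2 := choose_two_pow_le n c hc
  refine le_trans ?_ h1
  gcongr
  refine h2.trans (le_of_eq ?_)
  apply sum_congr rfl
  intro m _
  rw [show 3 - 2 = 1 by norm_num, one_pow]

theorem tri_aux (a b c : ℕ) (h1 : c ≤ a) (h2 : c ≤ b) :
    2 * (a + b + c + 1) * ((a + b + c).choose c * (a + b).choose a) ≤ 3 ^ (a + b + c + 1) := by
  set M := (a + b + c).choose c * (a + b).choose a with hM
  have h3 := two_pow_bound (a + b + c) c (by omega)
  rw [Nat.add_sub_cancel] at h3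
  have h4 : ((a + b).choose a) ^ 2 * (a + b + 1) ≤ 4 ^ (a + b) := by
    refine le_trans ?_ (choose_half_sq (a + b))
    gcongr
    exact Nat.choose_le_middle _ _
  have h5 : M ^ 2 * (a + b + 1) ≤ ((a + b + c).choose c * 2 ^ (a + b)) ^ 2 := by
    calc M ^ 2 * (a + b + 1) =
        ((a + b + c).choose c) ^ 2 * (((a + b).choose a) ^ 2 * (a + b + 1)) := by
          rw [hM]; ring
      _ ≤ ((a + b + c).choose c) ^ 2 * 4 ^ (a + b) := by gcongr
      _ = ((a + b + c).choose c * 2 ^ (a + b)) ^ 2 := by
          rw [mul_pow, ← pow_mul, mul_comm (a + b) 2, pow_mul]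
          norm_num
  have h6 : (2 * (a + b + c + 1) * M) ^ 2 ≤ (3 ^ (a + b + c + 1)) ^ 2 := by
    calc (2 * (a + b + c + 1) * M) ^ 2
        = 2 * (a + b + c + 1) * (2 * (a + b + c + 1) * M ^ 2) := by ring
      _ ≤ 2 * (a + b + c + 1) * (3 * (a + b + 1) * M ^ 2) := by
          gcongr 2 * (a + b + c + 1) * (?_ * M ^ 2)
          omega
      _ = 3 * (2 * (a + b + c + 1) * (M ^ 2 * (a + b + 1))) := by ring
      _ ≤ 3 * (2 * (a + b + c + 1) * ((a + b + c).choose c * 2 ^ (a + b)) ^ 2) := by gcongr
      _ ≤ 3 * 3 ^ (2 * (a + b + c) + 1) := by gcongr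
      _ = (3 ^ (a + b + c + 1)) ^ 2 := by ring
  exact (Nat.pow_le_pow_iff_left two_ne_zero).1 h6

/-- The factorial form. -/
theorem tri_fact_aux (a b c : ℕ) (h1 : c ≤ a) (h2 : c ≤ b) :
    2 * (a + b + c + 1) * (a + b + c).factorial ≤
      3 ^ (a + b + c + 1) * (a.factorial * b.factorial * c.factorial) := by
  have h3 : (a + b + c).choose c * c.factorial * (a + b).factorial = (a + b + c).factorial := by
    have := Nat.choose_mul_factorial_mul_factorial (n := a + b + c) (k := c) (by omega)
    rwa [Nat.add_sub_cancel] at this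
  have h4 : (a + b).choose a * a.factorial * b.factorial = (a + b).factorial := by
    have := Nat.choose_mul_factorial_mul_factorial (n := a + b) (k := a) (by omega)
    rwa [Nat.add_sub_cancel_left] at this
  calc 2 * (a + b + c + 1) * (a + b + c).factorial
      = 2 * (a + b + c + 1) * ((a + b + c).choose c * (a + b).choose a) *
        (a.factorial * b.factorial * c.factorial) := by
        rw [← h3, ← h4]; ring
    _ ≤ _ := Nat.mul_le_mul_right _ (tri_aux a b c h1 h2)

theorem tri_fact (a b c : ℕ) : 2 * (a + b + c + 1) * (a + b + c).factorial ≤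
      3 ^ (a + b + c + 1) * (a.factorial * b.factorial * c.factorial) := by
  rcases le_total c a with h1 | h1
  · rcases le_total c b with h2 | h2
    · exact tri_fact_aux a b c h1 h2
    · have h3 := tri_fact_aux a c b (h2.trans h1) h2
      rw [show a + c + b = a + b + c by ring] at h3
      refine h3.trans (le_of_eq ?_)
      ring
  · rcases le_total a b with h2 | h2
    · have h3 := tri_fact_aux b c a h2 h1
      rw [show b + c + a = a + b + c by ring] at h3
      refine h3.trans (le_of_eq ?_)
      ring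
    · have h3 := tri_fact_aux a c b h2 (h2.trans h1)
      rw [show a + c + b = a + b + c by ring] at h3
      refine h3.trans (le_of_eq ?_)
      ring

theorem tri_bound {k i j : ℕ} (hi : i ≤ k) (hj : j ≤ i) :
    2 * (k + 1) * (k.choose i * i.choose j) ≤ 3 ^ (k + 1) := by
  obtain ⟨c, rfl⟩ := Nat.exists_eq_add_of_le hi
  obtain ⟨b, rfl⟩ := Nat.exists_eq_add_of_le hj
  have h1 := tri_fact j b c
  have h3 : (j + b + c).choose (j + b) * (j + b).factorial * c.factorial =
      (j + b + c).factorial := by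
    have := Nat.choose_mul_factorial_mul_factorial (n := j + b + c) (k := j + b) (by omega)
    rwa [Nat.add_sub_cancel_left] at this
  have h4 : (j + b).choose j * j.factorial * b.factorial = (j + b).factorial := by
    have := Nat.choose_mul_factorial_mul_factorial (n := j + b) (k := j) (by omega)
    rwa [Nat.add_sub_cancel_left] at this
  have h5 : 0 < j.factorial * b.factorial * c.factorial :=
    Nat.mul_pos (Nat.mul_pos (Nat.factorial_pos _) (Nat.factorial_pos _)) (Nat.factorial_pos _)
  apply Nat.le_of_mul_le_mul_right _ h5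
  refine le_trans (le_of_eq ?_) h1
  rw [← h3, ← h4]
  ring

/-! ### Three letters -/

variable {Q : Type*} [CommGroup Q]

/-- The words of length at most `n` in `x`, `y`, `z` are determined by their products, up to the
order of the letters. -/
def General (n : ℕ) (x y z : Q) : Prop :=
  ∀ a b c a' b' c' : ℕ, a + b + c ≤ n → a + b + c = a' + b' + c' →
    x ^ a * y ^ b * z ^ c = x ^ a' * y ^ b' * z ^ c' → a = a' ∧ b = b' ∧ c = c'

theorem three_coeff {n : ℕ} {x y z : Q} (h : General n x y z) {k : ℕ} (hk : k ≤ n) (t : Q) :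
    ((MonoidAlgebra.single x 1 + MonoidAlgebra.single y 1 + MonoidAlgebra.single z 1 :
      MonoidAlgebra ℕ Q) ^ k).coeff t ≤ 3 ^ (k + 1) / (2 * (k + 1)) := by
  classical
  rw [Nat.le_div_iff_mul_le (by omega), mul_comm]
  have h1 : (MonoidAlgebra.single x 1 + MonoidAlgebra.single y 1 + MonoidAlgebra.single z 1 :
      MonoidAlgebra ℕ Q) ^ k = ∑ p ∈ (range (k + 1)).sigma fun i => range (i + 1),
        MonoidAlgebra.single (x ^ p.2 * y ^ (p.1 - p.2) * z ^ (k - p.1))
          (k.choose p.1 * p.1.choose p.2) := by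
    rw [add_pow, sum_sigma]
    apply sum_congr rfl
    intro i _
    rw [add_pow, sum_mul, sum_mul]
    apply sum_congr rfl
    intro j _
    rw [MonoidAlgebra.single_pow, MonoidAlgebra.single_pow, MonoidAlgebra.single_pow,
      MonoidAlgebra.single_mul_single, one_pow, one_pow, one_pow, one_mul, mul_assoc _ _
      (MonoidAlgebra.single (z ^ (k - i)) 1), Nat.cast_comm, ← mul_assoc,
      MonoidAlgebra.single_mul_single, one_mul, ← nsmul_eq_mul', ← nsmul_eq_mul',
      MonoidAlgebra.smul_single, MonoidAlgebra.smul_single]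
    congr 1
    simp
  rw [h1, MonoidAlgebra.coeff_sum, Finset.sum_apply']
  have h2 : ∀ p ∈ (range (k + 1)).sigma fun i => range (i + 1),
      (MonoidAlgebra.single (x ^ p.2 * y ^ (p.1 - p.2) * z ^ (k - p.1))
          (k.choose p.1 * p.1.choose p.2) : MonoidAlgebra ℕ Q).coeff t =
      if x ^ p.2 * y ^ (p.1 - p.2) * z ^ (k - p.1) = t then k.choose p.1 * p.1.choose p.2
        else 0 := by
    intro p _
    rw [MonoidAlgebra.coeff_single, Finsupp.single_apply]
  rw [sum_congr rfl h2]
  by_cases h3 : ∃ p ∈ (range (k + 1)).sigma fun i => range (i + 1),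
      x ^ p.2 * y ^ (p.1 - p.2) * z ^ (k - p.1) = t
  · obtain ⟨p, hp0, hpt⟩ := h3
    have hp := hp0
    rw [mem_sigma, mem_range, mem_range] at hp
    rw [sum_eq_single_of_mem p hp0, if_pos hpt]
    · exact tri_bound (by omega) (by omega)
    · intro q hq hqp
      rw [mem_sigma, mem_range, mem_range] at hq
      apply if_neg
      intro h4
      apply hqp
      have h5 := h q.2 (q.1 - q.2) (k - q.1) p.2 (p.1 - p.2) (k - p.1) (by omega) (by omega)
        (h4.trans hpt.symm)
      have h6 : q.1 = p.1 := by omega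
      obtain ⟨q1, q2⟩ := q
      obtain ⟨p1, p2⟩ := p
      simp only at h5 h6
      subst h6
      rw [h5.1]
  · rw [sum_eq_zero]
    · simp
    · intro q hq
      apply if_neg
      intro h4
      exact h3 ⟨q, hq, h4⟩

/-- **The bound for words with three letters in general position.** -/
theorem three_bound {n : ℕ} {x y z : Q} (h : General n x y z) (R : Multiset Q) (t : Q) :
    2 * (n + 1) * (P (x ::ₘ y ::ₘ z ::ₘ R) ^ n).coeff t ≤
      (x ::ₘ y ::ₘ z ::ₘ R).card ^ (n + 1) := by
  classical
  have hc : (x ::ₘ y ::ₘ z ::ₘ R).card = R.card + 3 := by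
    rw [Multiset.card_cons, Multiset.card_cons, Multiset.card_cons]
  have h1 : (P (x ::ₘ y ::ₘ z ::ₘ R) ^ n).coeff t ≤ ∑ m ∈ range (n + 1),
      n.choose m * (3 ^ (m + 1) / (2 * (m + 1)) * R.card ^ (n - m)) := by
    rw [P_cons, P_cons, P_cons, ← add_assoc, ← add_assoc, add_pow, MonoidAlgebra.coeff_sum,
      Finset.sum_apply']
    apply sum_le_sum
    intro m hm
    rw [mem_range] at hm
    rw [← nsmul_eq_mul', MonoidAlgebra.coeff_smul, Finsupp.smul_apply, smul_eq_mul]
    apply Nat.mul_le_mul_left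
    have h3 := coeff_mul_le (three_coeff h (k := m) (by omega)) (P R ^ (n - m)) t
    rwa [map_pow, aug_P] at h3
  refine (Nat.mul_le_mul_left _ h1).trans ?_
  rw [hc, add_comm R.card 3, add_pow, sum_range_succ' _ (n + 1), mul_sum]
  refine le_trans ?_ (Nat.le_add_right _ _)
  apply sum_le_sum
  intro m _
  have h4 := Nat.add_one_mul_choose_eq n m
  have h5 : 2 * (m + 1) * (3 ^ (m + 1) / (2 * (m + 1))) ≤ 3 ^ (m + 1) := Nat.mul_div_le _ _
  rw [Nat.add_sub_add_right]
  calc 2 * (n + 1) * (n.choose m * (3 ^ (m + 1) / (2 * (m + 1)) * R.card ^ (n - m)))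
      = 2 * ((n + 1) * n.choose m) * (3 ^ (m + 1) / (2 * (m + 1))) * R.card ^ (n - m) := by ring
    _ = 2 * ((n + 1).choose (m + 1) * (m + 1)) * (3 ^ (m + 1) / (2 * (m + 1))) *
        R.card ^ (n - m) := by rw [h4]
    _ = 2 * (m + 1) * (3 ^ (m + 1) / (2 * (m + 1))) * R.card ^ (n - m) *
        (n + 1).choose (m + 1) := by ring
    _ ≤ 3 ^ (m + 1) * R.card ^ (n - m) * (n + 1).choose (m + 1) := by gcongr

end Pool.Agent.Run7.H98.CR
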