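import Pool.Agent.Run7.h98.CR.Cls

/-!
# The degree operator and a correspondence with the same supertraces
-/

set_option autoImplicit false

open CategoryTheory AlgebraicGeometry Finset TensorProduct Module

universe u v

namespace Pool.Agent.Run7.H98.CR

open Pool.Agent.H914 VarClass Obj WeilCohomology Pool.Agent.N190.CB Pool.Agent.N103.OC
  Pool.Agent.N536.HK Pool.Agent.Run7.H98.CX Pool.Agent.Run7.H634.WZ

variable {k : Type u} [Field k] {𝒱 : VarClass k} {ops : CycleOps 𝒱}
  {W : WeilCohomology.{u, v} ops} {X Y Z : 𝒱.Obj} {Op : ∀ X : 𝒱.Obj, Set (Module.End W.K (W.H X))}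
  {lam : W.K →+ W.K}

/-- The operators all of whose Kunneth components are in the class. -/
def KPo (Op : ∀ X : 𝒱.Obj, Set (Module.End W.K (W.H X))) (X : 𝒱.Obj) :
    Set (Module.End W.K (W.H X)) :=
  {a | a ∈ Op X ∧ ∀ i, proj (W.isInternal X) i * a ∈ Op X}

/-- Rational diagonal operators. -/
lemma Good.sc_mul (h : Good W Op lam) {a : Module.End W.K (W.H X)} (ha : a ∈ KPo Op X)
    (c : ℕ → ℚ) : sc W X (fun i => (c i : W.K)) * a ∈ Op X := by
  show scal (W.isInternal X) (fun i => (c i : W.K)) * a ∈ Op X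
  rw [scal_eq_sum (W.isInternal X) W_hbd, Finset.sum_mul]
  refine h.cls.sum fun i _ => ?_
  rw [smul_mul_assoc]
  exact h.cls.smul _ (ha.2 i)

lemma dg_eq : dg W X = sc W X (fun i => (((i : ℚ) : ℚ) : W.K)) := by
  show scal _ _ = scal _ _
  congr 1
  funext i
  push_cast
  rfl

lemma par_eq' : par (W.isInternal X) = sc W X (fun i => (((-1 : ℚ) ^ i : ℚ) : W.K)) := by
  show scal _ _ = scal _ _
  congr 1
  funext i
  push_cast
  rfl

lemma proj_mul_sc (i : ℕ) (c : ℕ → W.K) :
    proj (W.isInternal X) i * sc W X c = c i • proj (W.isInternal X) i := by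
  apply gr_ext (W.isInternal X)
  intro j x hx
  rw [Module.End.mul_apply, LinearMap.smul_apply, scal_apply _ _ hx, map_smul]
  by_cases hji : j = i
  · subst hji
    rfl
  · rw [proj_ne _ hx hji, smul_zero, smul_zero]

/-- Closure properties of `KPo`. -/
lemma Good.sc_mul' (h : Good W Op lam) {a : Module.End W.K (W.H X)} (ha : a ∈ KPo Op X)
    (c : ℕ → ℚ) : sc W X (fun i => (c i : W.K)) * a ∈ KPo Op X := by
  refine ⟨h.sc_mul ha c, fun i => ?_⟩
  rw [← mul_assoc, proj_mul_sc, smul_mul_assoc]
  exact h.cls.smul _ (ha.2 i)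

lemma Good.mul_mem' (h : Good W Op lam) {a b : Module.End W.K (W.H X)} (ha : a ∈ KPo Op X)
    (hb : b ∈ Op X) : a * b ∈ KPo Op X :=
  ⟨h.cls.mul ha.1 hb, fun i => by
    rw [← mul_assoc]
    exact h.cls.mul (ha.2 i) hb⟩

lemma Good.mul_dg (h : Good W Op lam) {a : Module.End W.K (W.H X)} (ha : a ∈ KPo Op X) :
    a * dg W X ∈ KPo Op X := by
  rw [← sc_comm _ (h.kop ha.1)]
  have h1 := h.sc_mul' ha (fun i => (i : ℚ))
  rwa [← dg_eq] at h1

lemma Good.sub_mem (h : Good W Op lam) {a b : Module.End W.K (W.H X)} (ha : a ∈ KPo Op X)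
    (hb : b ∈ KPo Op X) : a - b ∈ KPo Op X :=
  ⟨h.cls.sub ha.1 hb.1, fun i => by
    rw [mul_sub]
    exact h.cls.sub (ha.2 i) (hb.2 i)⟩

/-- Elements of `KPo` are elements of `KP`. -/
lemma Good.kp (h : Good W Op lam) {a : Module.End W.K (W.H X)} (ha : a ∈ KPo Op X) :
    a ∈ KP W X := fun c => by
  show scal (W.isInternal X) c * a ∈ KOp W X X 0
  rw [scal_eq_sum (W.isInternal X) W_hbd, Finset.sum_mul]
  refine Submodule.sum_mem _ fun i _ => ?_
  rw [smul_mul_assoc]
  exact Submodule.smul_mem _ _ (h.kop (ha.2 i))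

/-! ### The correspondence -/

/-- `C` has the supertraces of the degree operator. -/
def Rep (W : WeilCohomology.{u, v} ops) (Op : ∀ X : 𝒱.Obj, Set (Module.End W.K (W.H X)))
    (lam : W.K →+ W.K) (X : 𝒱.Obj) (C : Module.End W.K (W.H X)) : Prop :=
  C ∈ Op X ∧ ∀ x ∈ Op X, lam (str W X (x * dg W X)) = str W X (x * C)

lemma Good.exists_C (h : Good W Op lam)
    (hz : ∀ z ∈ KOp W X X 0, z * z = z → (∀ c ∈ KOp W X X 0, str W X (z * c) = 0) → z = 0) :
    ∃ C, Rep W Op lam X C := by
  obtain ⟨C, hC, h1⟩ := h.rep X (dg W X) fun x hx hx' => by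
    have hspan : ∀ c ∈ Submodule.span W.K (Op X), str W X (x * c) = 0 := by
      intro c hc
      induction hc using Submodule.span_induction with
      | mem c hc => exact hx' c hc
      | zero => rw [mul_zero, map_zero]
      | add a b _ _ ha hb => rw [mul_add, map_add, ha, hb, add_zero]
      | smul r a _ ha => rw [mul_smul_comm, map_smul, ha, smul_zero]
    have hx2 : ∀ c ∈ KOp W X X 0, str W X (x * c) = 0 := fun c hc => hspan c (h.span X hc)
    have h1 := nilpotent_of_no_idem (KOp W X X 0) (fun a ha b hb => kop_mul ha hb) (str W X) hz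
      (h.kop hx) hx2
    obtain ⟨r, hr⟩ := h1
    have h2 : Commute (par (W.isInternal X) * dg W X) x := by
      show par (W.isInternal X) * dg W X * x = x * (par (W.isInternal X) * dg W X)
      have h3 : par (W.isInternal X) * x = x * par (W.isInternal X) := sc_comm _ (h.kop hx)
      rw [mul_assoc, sc_comm _ (h.kop hx), ← mul_assoc, h3, mul_assoc]
    have h3 : IsNilpotent (par (W.isInternal X) * dg W X * x) :=
      ⟨r, by rw [h2.mul_pow, hr, mul_zero]⟩
    have h4 := LinearMap.isNilpotent_trace_of_isNilpotent h3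
    show LinearMap.trace W.K (W.H X) (par (W.isInternal X) * (x * dg W X)) = 0
    rw [← sc_comm _ (h.kop hx), ← mul_assoc]
    exact h4.eq_zero
  exact ⟨C, hC, h1⟩

lemma Good.rep_step (h : Good W Op lam) {CY : Module.End W.K (W.H Y)}
    {C : Module.End W.K (W.H X)} (hY : Rep W Op lam Y CY) (hX : Rep W Op lam X C) :
    Rep W Op lam (Y.prod X) (extOp W CY 1 + extOp W 1 C) := by
  refine ⟨h.cls.add (h.cls.ext hY.1 (h.cls.one X)) (h.cls.ext (h.cls.one Y) hX.1), ?_⟩
  intro x hx
  obtain ⟨T, hT, h1⟩ := h.cls.contr hx (h.cls.one X)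
  have h1' : ∀ F : Module.End W.K (W.H Y),
      str W (Y.prod X) (x * extOp W F 1) = str W Y (T * F) := by
    intro F
    obtain ⟨f, hf⟩ := corr_bijective.2 F
    have hf' : W.corr f = F := hf
    rw [← hf']
    exact h1 f
  obtain ⟨T', hT', h2⟩ := h.contr1 hx
  rw [dg_prod, mul_add, mul_add, map_add, map_add, map_add, h1', h1',
    h2 _ (fun i x hx => sc_gr _ i hx), h2 _ (fun i x hx => kop_gr (h.kop hX.1) i hx), hY.2 T hT,
    hX.2 T' hT']

/-- The powers. -/
lemma Good.rep_pw (h : Good W Op lam) {C : Module.End W.K (W.H X)} (hX : Rep W Op lam X C)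
    (n : ℕ) : ∃ Cn, Rep W Op lam (pw X (n + 1)) Cn ∧
      dl W (dg W X - C) n = dg W (pw X (n + 1)) - Cn := by
  induction n with
  | zero => exact ⟨C, hX, rfl⟩
  | succ n ih =>
    obtain ⟨Cn, hCn, h1⟩ := ih
    refine ⟨_, h.rep_step (Y := pw X (n + 1)) hCn hX, ?_⟩
    rw [dl, h1]
    exact dl_step (Y := pw X (n + 1))

/-- Orthogonality. -/
lemma Good.trace_zero (h : Good W Op lam) {C : Module.End W.K (W.H X)} (hX : Rep W Op lam X C)
    {a : Module.End W.K (W.H X)} (ha : a ∈ KPo Op X) :
    LinearMap.trace W.K (W.H X) ((dg W X - C) * a) = 0 := by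
  have h1 : par (W.isInternal X) * a ∈ KPo Op X := by
    rw [par_eq']
    exact h.sc_mul' ha _
  have h2 := hX.2 _ h1.1
  rw [h.lam_str (h.mul_dg h1).1] at h2
  have h3 : str W X (par (W.isInternal X) * a * (dg W X - C)) = 0 := by
    rw [mul_sub, map_sub, h2, sub_self]
  rw [str_apply, ← mul_assoc, ← mul_assoc, par_mul_par, one_mul] at h3
  rwa [LinearMap.trace_mul_comm]

/-- The bound for the rank. -/
lemma Good.rank_le (h : Good W Op lam) {C : Module.End W.K (W.H X)} (hX : Rep W Op lam X C)
    (n : ℕ) {e : Module.End W.K (W.H (pw X (n + 1)))} (he : e * e = e)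
    (heP : e ∈ KPo Op (pw X (n + 1))) :
    finrank W.K (LinearMap.range e) ≤
      finrank W.K ((dl W (dg W X - C) n).maxGenEigenspace 0) := by
  obtain ⟨Cn, hCn, h1⟩ := h.rep_pw hX n
  apply rank_le_gen (Submodule.span W.K (KPo Op (pw X (n + 1)))) he (Submodule.subset_span heP)
  · apply span_mul_mem
    intro a ha
    rw [h1, mul_sub]
    exact Submodule.subset_span (h.sub_mem (h.mul_dg ha) (h.mul_mem' ha hCn.1))
  · apply span_mul_mem
    intro a ha
    exact Submodule.subset_span (h.mul_mem' ha heP.1)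
  · apply span_trace_zero
    intro a ha
    rw [h1]
    exact h.trace_zero hCn ha

/-! ### The nilpotent case -/

/-- Evaluation of a rational polynomial. -/
noncomputable def ev (C : Module.End W.K (W.H X)) (p : Polynomial ℚ) : Module.End W.K (W.H X) :=
  Polynomial.aeval C (p.map (algebraMap ℚ W.K))

lemma ev_mul (C : Module.End W.K (W.H X)) (p q : Polynomial ℚ) : ev C (p * q) = ev C p * ev C q := by
  rw [ev, ev, ev, Polynomial.map_mul, map_mul]

lemma ev_add (C : Module.End W.K (W.H X)) (p q : Polynomial ℚ) : ev C (p + q) = ev C p + ev C q := by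
  rw [ev, ev, ev, Polynomial.map_add, map_add]

lemma ev_one (C : Module.End W.K (W.H X)) : ev C 1 = 1 := by
  rw [ev, Polynomial.map_one, map_one]

lemma Good.ev_mem (h : Good W Op lam) {C : Module.End W.K (W.H X)} (hC : C ∈ Op X)
    (p : Polynomial ℚ) : ev C p ∈ Op X := by
  induction p using Polynomial.induction_on' with
  | add p q hp hq => rw [ev_add]; exact h.cls.add hp hq
  | monomial s b =>
    rw [ev, Polynomial.map_monomial, Polynomial.aeval_monomial, ← Algebra.smul_def, eq_ratCast]
    apply h.cls.smul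
    induction s with
    | zero => rw [pow_zero]; exact h.cls.one X
    | succ s ih => rw [pow_succ]; exact h.cls.mul ih hC

lemma ev_lin (C : Module.End W.K (W.H X)) (j r : ℕ) :
    ev C ((Polynomial.X - Polynomial.C (j : ℚ)) ^ r) = (C - (j : W.K) • 1) ^ r := by
  rw [ev, Polynomial.map_pow, map_pow, Polynomial.map_sub, Polynomial.map_X, Polynomial.map_C,
    map_sub, Polynomial.aeval_X, Polynomial.aeval_C, map_natCast, Algebra.algebraMap_eq_smul_one]

/-- If the difference of the degree operator and an operator in the class is nilpotent, then the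
projectors are in the class. -/
lemma Good.proj_mem (h : Good W Op lam) {C : Module.End W.K (W.H X)} (hC : C ∈ Op X)
    (hn : IsNilpotent (dg W X - C)) (i : ℕ) : proj (W.isInternal X) i ∈ Op X := by
  obtain ⟨r, hr⟩ := hn
  set δ := dg W X - C with hδ
  have hδgr : ∀ i, ∀ x ∈ W.gr X i, δ x ∈ W.gr X i := fun i x hx => by
    rw [hδ, LinearMap.sub_apply]
    exact Submodule.sub_mem _ (sc_gr _ i hx) (kop_gr (h.kop hC) i hx)
  by_cases hi : i < 2 * X.dim + 1
  swap
  · rw [proj_zero_of_bot (W.gr_eq_bot X i (by omega))]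
    exact h.cls.zero X
  have hlin : ∀ j, ∀ x ∈ W.gr X j, ev C ((Polynomial.X - Polynomial.C (j : ℚ)) ^ r) x = 0 := by
    intro j x hx
    rw [ev_lin]
    have h1 : ∀ s : ℕ, ((C - (j : W.K) • 1) ^ s) x = ((-1 : W.K) ^ s) • (δ ^ s) x ∧
        (δ ^ s) x ∈ W.gr X j := by
      intro s
      induction s with
      | zero =>
        rw [pow_zero, pow_zero, pow_zero, one_smul]
        exact ⟨rfl, hx⟩
      | succ s ih =>
        have h2 : ∀ y ∈ W.gr X j, (C - (j : W.K) • 1) y = - δ y := by
          intro y hy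
          have h3 : dg W X y = (j : W.K) • y := scal_apply _ _ hy
          rw [hδ, LinearMap.sub_apply, LinearMap.sub_apply, LinearMap.smul_apply,
            Module.End.one_apply, h3, neg_sub]
        rw [pow_succ', pow_succ' δ, Module.End.mul_apply, Module.End.mul_apply, ih.1, map_smul,
          h2 _ ih.2, pow_succ, mul_neg_one, neg_smul, smul_neg]
        exact ⟨rfl, hδgr j _ ih.2⟩
    rw [(h1 r).1, hr, LinearMap.zero_apply, smul_zero]
  -- the Chinese remainder theorem
  set q : ℕ → Polynomial ℚ := fun j => (Polynomial.X - Polynomial.C (j : ℚ)) ^ r with hq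
  have hcop : IsCoprime (q i) (∏ j ∈ (range (2 * X.dim + 1)).erase i, q j) := by
    apply IsCoprime.prod_right
    intro j hj
    rw [mem_erase] at hj
    apply IsCoprime.pow
    apply Polynomial.isCoprime_X_sub_C_of_isUnit_sub
    apply IsUnit.mk0
    rw [sub_ne_zero]
    exact_mod_cast hj.1.symm
  obtain ⟨a, b, hab⟩ := hcop
  have hev : ev C (b * ∏ j ∈ (range (2 * X.dim + 1)).erase i, q j) =
      proj (W.isInternal X) i := by
    apply gr_ext (W.isInternal X)
    intro j x hx
    by_cases hji : j = i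
    · subst hji
      rw [proj_same _ hx]
      have h1 := congrArg (ev C) hab
      rw [ev_add, ev_one, ev_mul C a] at h1
      have h2 := congrArg (fun F : Module.End W.K (W.H X) => F x) h1
      simp only [LinearMap.add_apply, Module.End.mul_apply, Module.End.one_apply] at h2
      rw [hlin j x hx, map_zero, zero_add] at h2
      exact h2
    · rw [proj_ne _ hx hji]
      by_cases hj : j < 2 * X.dim + 1
      · rw [← Finset.prod_erase_mul _ q (a := j) (mem_erase.2 ⟨hji, mem_range.2 hj⟩), ← mul_assoc,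
          ev_mul, Module.End.mul_apply, hlin j x hx, map_zero]
      · rw [W.gr_eq_bot X j (by omega), Submodule.mem_bot] at hx
        rw [hx, map_zero]
  rw [← hev]
  exact h.ev_mem hC _

end Pool.Agent.Run7.H98.CR
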