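import Pool.Agent.Run7.h98.CR.One2
import Pool.Agent.Run7.h98.CR.Betti

/-!
# The laws
-/

set_option autoImplicit false

open CategoryTheory AlgebraicGeometry Finset TensorProduct Module Filter

universe u v

namespace Pool.Agent.Run7.H98.CR

open Pool.Agent.H914 VarClass Obj WeilCohomology Pool.Agent.N190.CB Pool.Agent.N103.OC
  Pool.Agent.N536.HK Pool.Agent.Run7.H98.CX

section Rank

variable {K : Type*} {V : Type*} [Field K] [AddCommGroup V] [Module K V] [FiniteDimensional K V]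
  {P : Module.End K V → Prop}

lemma ranks_bddAbove (P : Module.End K V → Prop) :
    BddAbove {r | ∃ e, P e ∧ r = finrank K (LinearMap.range e)} := by
  refine ⟨finrank K V, ?_⟩
  rintro r ⟨e, -, rfl⟩
  exact Submodule.finrank_le _

lemma exists_largest (h0 : P 0) : ∃ e, P e ∧ largestRank P = finrank K (LinearMap.range e) := by
  have h1 : largestRank P ∈ {r | ∃ e, P e ∧ r = finrank K (LinearMap.range e)} :=
    Nat.sSup_mem ⟨_, 0, h0, rfl⟩ (ranks_bddAbove P)
  exact h1

lemma le_largest {e : Module.End K V} (h : P e) : finrank K (LinearMap.range e) ≤ largestRank P :=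
  le_csSup (ranks_bddAbove P) ⟨e, h, rfl⟩

end Rank

variable {k : Type u} [Field k] {𝒱 : VarClass k} {ops : CycleOps 𝒱}
  {W : WeilCohomology.{u, v} ops} {X Y Z : 𝒱.Obj} {Op : ∀ X : 𝒱.Obj, Set (Module.End W.K (W.H X))}
  {lam : W.K →+ W.K}

/-- The graded direct summands. -/
lemma Good.graded_iff (h : Good W Op lam) {e : Module.End W.K (W.H X)} :
    GradedSummand (W.gr X) (Op X) e ↔ e * e = e ∧ e ∈ KPo Op X := by
  constructor
  · rintro ⟨h1, h2, h3⟩
    refine ⟨h2, h1, fun i => ?_⟩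
    obtain ⟨p, hp, hp'⟩ := h3 i
    have h5 : proj (W.isInternal X) i * e = p := by
      apply gr_ext (W.isInternal X)
      intro j x hx
      rw [Module.End.mul_apply, hp' j x hx]
      have hex : e x ∈ W.gr X j := kop_gr (h.kop h1) j hx
      split_ifs with hji
      · subst hji
        exact proj_same _ hex
      · exact proj_ne _ hex hji
    rw [h5]
    exact hp
  · rintro ⟨h2, h1, h3⟩
    refine ⟨h1, h2, fun i => ⟨proj (W.isInternal X) i * e, h3 i, fun j x hx => ?_⟩⟩
    have hex : e x ∈ W.gr X j := kop_gr (h.kop h1) j hx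
    rw [Module.End.mul_apply]
    split_ifs with hji
    · subst hji
      exact proj_same _ hex
    · exact proj_ne _ hex hji

lemma cohDim_zero_proj (h : cohDim W X = 0) (hz : (0 : Module.End W.K (W.H X)) ∈ Op X) (i : ℕ) :
    proj (W.isInternal X) i ∈ Op X := by
  have h1 : ∀ x : W.H X, x = 0 := fun x => by
    have := Module.finrank_zero_iff.1 h
    exact Subsingleton.elim _ _
  have h2 : proj (W.isInternal X) i = 0 := LinearMap.ext fun x => h1 _
  rw [h2]
  exact hz

/-- **The share law for a class of operators.** -/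
theorem Good.shareLaws (h : Good W Op lam) :
    ShareLaws W (fun Y => largestRank (GradedSummand (W.gr Y) (Op Y)))
      (fun X => ∀ i, proj (W.isInternal X) i ∈ Op X) := by
  have hg0 : ∀ X : 𝒱.Obj, GradedSummand (W.gr X) (Op X) 0 := fun X =>
    h.graded_iff.2 ⟨mul_zero _, h.cls.zero X, fun i => by rw [mul_zero]; exact h.cls.zero X⟩
  have hle : ∀ X : 𝒱.Obj, largestRank (GradedSummand (W.gr X) (Op X)) ≤ cohDim W X := fun X => by
    obtain ⟨e, -, he⟩ := exists_largest (hg0 X)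
    rw [he]
    exact Submodule.finrank_le _
  have hfull : ∀ X : 𝒱.Obj, (∀ i, proj (W.isInternal X) i ∈ Op X) →
      largestRank (GradedSummand (W.gr X) (Op X)) = cohDim W X := fun X hX => by
    apply le_antisymm (hle X)
    have h1 : GradedSummand (W.gr X) (Op X) 1 :=
      h.graded_iff.2 ⟨mul_one 1, h.cls.one X, fun i => by rw [mul_one]; exact hX i⟩
    have h2 := le_largest h1
    have h3 : LinearMap.range (1 : Module.End W.K (W.H X)) = ⊤ := LinearMap.range_id
    rwa [h3, finrank_top] at h2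
  have hbound : ∀ X : 𝒱.Obj, (¬ ∀ i, proj (W.isInternal X) i ∈ Op X) → ∀ n ≥ 1,
      2 * (n + 1) * largestRank (GradedSummand (W.gr (pw X n)) (Op (pw X n))) ^ 2 ≤
        cohDim W X ^ (2 * n + 1) := by
    intro X hX n hn
    obtain ⟨n, rfl⟩ := Nat.exists_eq_add_of_le' hn
    obtain ⟨e, he, h1⟩ := exists_largest (hg0 (pw X (n + 1)))
    rw [h1]
    exact h.share_bound hX n (h.graded_iff.1 he).1 (h.graded_iff.1 he).2
  have hzero : ∀ X : 𝒱.Obj, cohDim W X = 0 → ∀ i, proj (W.isInternal X) i ∈ Op X :=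
    fun X h0 i => cohDim_zero_proj h0 (h.cls.zero X) i
  -- the consequence of a lower bound for the share
  have hkey : ∀ X : 𝒱.Obj, (¬ ∀ i, proj (W.isInternal X) i ∈ Op X) → ∀ (n : ℕ) (c : ℝ), 0 ≤ c →
      c * cohDim W (pw X (n + 1)) ≤
        largestRank (GradedSummand (W.gr (pw X (n + 1))) (Op (pw X (n + 1)))) →
      2 * ((n : ℝ) + 2) * c ^ 2 ≤ cohDim W X := by
    intro X hX n c hc h4
    have h0 : 0 < cohDim W X := Nat.pos_of_ne_zero fun h0 => hX (hzero X h0)
    have h1 := hbound X hX (n + 1) (Nat.succ_pos n)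
    set r := largestRank (GradedSummand (W.gr (pw X (n + 1))) (Op (pw X (n + 1)))) with hr
    have h2 : 2 * ((n : ℝ) + 1 + 1) * (r : ℝ) ^ 2 ≤
        (cohDim W X : ℝ) ^ (2 * (n + 1) + 1) := by exact_mod_cast h1
    rw [cohDim_pw] at h4
    push_cast at h4
    have h3 : (0 : ℝ) < cohDim W X := by exact_mod_cast h0
    have h5 : (c * (cohDim W X : ℝ) ^ (n + 1)) ^ 2 ≤ (r : ℝ) ^ 2 :=
      pow_le_pow_left₀ (by positivity) h4 2
    have h6 : 2 * ((n : ℝ) + 2) * c ^ 2 * ((cohDim W X : ℝ) ^ (n + 1)) ^ 2 ≤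
        cohDim W X * ((cohDim W X : ℝ) ^ (n + 1)) ^ 2 := by
      calc 2 * ((n : ℝ) + 2) * c ^ 2 * ((cohDim W X : ℝ) ^ (n + 1)) ^ 2
          = 2 * ((n : ℝ) + 1 + 1) * (c * (cohDim W X : ℝ) ^ (n + 1)) ^ 2 := by ring
        _ ≤ 2 * ((n : ℝ) + 1 + 1) * (r : ℝ) ^ 2 := by gcongr
        _ ≤ (cohDim W X : ℝ) ^ (2 * (n + 1) + 1) := h2
        _ = cohDim W X * ((cohDim W X : ℝ) ^ (n + 1)) ^ 2 := by ring
    exact le_of_mul_le_mul_right h6 (by positivity)
  refine ⟨hbound, fun X => ⟨fun hX => ?_, ?_⟩, ⟨fun hX => ?_, ?_⟩⟩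
  · refine ⟨1, one_pos, Eventually.frequently ?_⟩
    filter_upwards [eventually_ge_atTop 1] with n hn
    obtain ⟨n, rfl⟩ := Nat.exists_eq_add_of_le' hn
    have h1 := hfull (pw X (n + 1)) (h.cls.pw_proj hX n)
    simp only [one_mul, h1, le_refl]
  · rintro ⟨c, hc0, hf⟩
    by_contra hX
    obtain ⟨N, hN⟩ := exists_nat_gt ((cohDim W X : ℝ) / (2 * c ^ 2))
    obtain ⟨n, hn, hn2⟩ := (hf.and_eventually (eventually_ge_atTop (N + 1))).exists
    obtain ⟨n, rfl⟩ := Nat.exists_eq_add_of_le' (le_trans (Nat.le_add_left 1 N) hn2)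
    have h2 := hkey X hX n c hc0.le hn
    rw [div_lt_iff₀ (by positivity)] at hN
    have h3 : (N : ℝ) ≤ n := by
      have : N ≤ n := by omega
      exact_mod_cast this
    nlinarith [pow_pos hc0 2]
  · refine ⟨fun _ => 1, ⟨fun _ _ => one_pos, ?_⟩, fun Y => ?_⟩
    · simp only [one_mul]
      exact Real.tendsto_sqrt_atTop.comp Real.tendsto_log_atTop
    · have h1 := hfull Y (hX Y)
      simp only [one_mul, h1, le_refl]
  · rintro ⟨f, ⟨hf0, hf⟩, h'⟩ X
    by_contra hX
    have hb0 : cohDim W X ≠ 0 := fun h2 => hX (hzero X h2)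
    have hb1 : (1 : ℝ) ≤ cohDim W X := by exact_mod_cast Nat.one_le_iff_ne_zero.2 hb0
    have hdim : ∀ n, (cohDim W (pw X (n + 1)) : ℝ) = (cohDim W X : ℝ) ^ (n + 1) := fun n => by
      rw [cohDim_pw]
      push_cast
      rfl
    have hy : ∀ n, (1 : ℝ) ≤ cohDim W (pw X (n + 1)) := fun n => by
      rw [hdim]
      exact one_le_pow₀ hb1
    have h2 : ∀ n : ℕ, 2 * ((n : ℝ) + 2) * f (cohDim W (pw X (n + 1))) ^ 2 ≤ cohDim W X :=
      fun n => hkey X hX n _ (hf0 _ (hy n)).le (h' _)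
    have h3 : (1 : ℝ) < cohDim W X := by
      by_contra h3
      have h4 : (cohDim W X : ℝ) = 1 := le_antisymm (not_lt.1 h3) hb1
      have h5 : ∀ n, (cohDim W (pw X (n + 1)) : ℝ) = 1 := fun n => by
        rw [hdim, h4, one_pow]
      obtain ⟨N, hN⟩ := exists_nat_gt (1 / (2 * f 1 ^ 2))
      have h6 := h2 N
      rw [h5, h4] at h6
      have h7 := hf0 1 le_rfl
      rw [div_lt_iff₀ (by positivity)] at hN
      nlinarith [pow_pos h7 2]
    have hlog : 0 < Real.log (cohDim W X) := Real.log_pos h3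
    obtain ⟨y0, hy0⟩ := eventually_atTop.1 (hf.eventually_gt_atTop
      (√(cohDim W X * Real.log (cohDim W X))))
    obtain ⟨n, hn⟩ := pow_unbounded_of_one_lt y0 h3
    have h4 : y0 ≤ cohDim W (pw X (n + 1)) := by
      rw [hdim]
      refine hn.le.trans ?_
      exact pow_le_pow_right₀ hb1 (Nat.le_succ n)
    have h5 := hy0 _ h4
    have h6 := h2 n
    set F := f (cohDim W (pw X (n + 1))) with hF
    have hF0 : 0 < F := hf0 _ (hy n)
    have h7 : Real.log (cohDim W (pw X (n + 1))) = (n + 1) * Real.log (cohDim W X) := by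
      rw [hdim, Real.log_pow]
      push_cast
      ring
    rw [h7] at h5
    have h8 : cohDim W X * Real.log (cohDim W X) <
        F ^ 2 * ((n + 1) * Real.log (cohDim W X)) := by
      have h9 := pow_lt_pow_left₀ h5 (Real.sqrt_nonneg _) two_ne_zero
      rw [Real.sq_sqrt (by positivity), mul_pow, Real.sq_sqrt (by positivity)] at h9
      exact h9
    have h9 : (cohDim W X : ℝ) < F ^ 2 * (n + 1) := by
      rw [← mul_assoc] at h8
      exact lt_of_mul_lt_mul_right h8 hlog.le
    nlinarith [pow_pos hF0 2]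

/-- The direct summands in one degree. -/
lemma oneDegree_iff {e : Module.End W.K (W.H X)} :
    OneDegreeSummand (W.gr X) (Op X) e ↔ e * e = e ∧ ∃ m, e ∈ InDeg Op X m := by
  constructor
  · rintro ⟨h1, h2, m, h3⟩
    exact ⟨h2, m, h1, h3⟩
  · rintro ⟨h2, m, h1, h3⟩
    exact ⟨h1, h2, m, h3⟩

/-- **The law for one degree.** -/
theorem Good.degreeLaws (h : Good W Op lam) :
    DegreeLaws W (fun Y => largestRank (OneDegreeSummand (W.gr Y) (Op Y)))
      (fun X => ∀ i, proj (W.isInternal X) i ∈ Op X) := by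
  have hg0 : ∀ X : 𝒱.Obj, OneDegreeSummand (W.gr X) (Op X) 0 := fun X =>
    ⟨h.cls.zero X, mul_zero _, 0, fun _ _ _ _ => rfl⟩
  have hfull : ∀ X : 𝒱.Obj, (∀ i, proj (W.isInternal X) i ∈ Op X) →
      maxBetti W X ≤ largestRank (OneDegreeSummand (W.gr X) (Op X)) := fun X hX => by
    refine Finset.sup_le fun m _ => ?_
    have h1 : OneDegreeSummand (W.gr X) (Op X) (proj (W.isInternal X) m) :=
      ⟨hX m, proj_mul_proj _ m, m, fun j hj x hx => proj_ne _ hx hj⟩
    have h2 := le_largest h1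
    rwa [range_proj] at h2
  have hbound : ∀ X : 𝒱.Obj, HasPoint X → (¬ ∀ i, proj (W.isInternal X) i ∈ Op X) → ∀ n ≥ 1,
      2 * (n + 1) * largestRank (OneDegreeSummand (W.gr (pw X n)) (Op (pw X n))) ≤
        cohDim W X ^ (n + 1) := by
    intro X hpt hX n hn
    obtain ⟨n, rfl⟩ := Nat.exists_eq_add_of_le' hn
    obtain ⟨e, he, h1⟩ := exists_largest (hg0 (pw X (n + 1)))
    rw [h1]
    obtain ⟨h2, m, h3⟩ := oneDegree_iff.1 he
    exact h.one_degree hpt hX n m h2 h3
  have hzero : ∀ X : 𝒱.Obj, cohDim W X = 0 → ∀ i, proj (W.isInternal X) i ∈ Op X :=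
    fun X h0 i => cohDim_zero_proj h0 (h.cls.zero X) i
  -- the consequence of a lower bound
  have hkey : ∀ X : 𝒱.Obj, HasPoint X → (¬ ∀ i, proj (W.isInternal X) i ∈ Op X) →
      ∀ (n : ℕ) (c : ℝ), 0 ≤ c → c * maxBetti W (pw X (n + 1)) ≤
        largestRank (OneDegreeSummand (W.gr (pw X (n + 1))) (Op (pw X (n + 1)))) →
      9 * c * √((n : ℝ) + 2) ≤ 8 * (4 * X.dim + 1) * cohDim W X := by
    intro X hpt hX n c hc h4
    have h0 : 0 < cohDim W X := Nat.pos_of_ne_zero fun h0 => hX (hzero X h0)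
    have h1 := hbound X hpt hX (n + 1) (Nat.succ_pos n)
    set r := largestRank (OneDegreeSummand (W.gr (pw X (n + 1))) (Op (pw X (n + 1)))) with hr
    have h2 : 2 * ((n : ℝ) + 1 + 1) * (r : ℝ) ≤ (cohDim W X : ℝ) ^ (n + 1 + 1) := by
      exact_mod_cast h1
    have h3 : (0 : ℝ) < cohDim W X := by exact_mod_cast h0
    have h5 := maxBetti_lower W X n
    set β : ℝ := (maxBetti W (pw X (n + 1)) : ℝ) with hβ
    set b : ℝ := (cohDim W X : ℝ) with hb
    set s : ℝ := √((n : ℝ) + 2) with hs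
    have hs0 : 0 < s := Real.sqrt_pos.2 (by positivity)
    have hs2 : s ^ 2 = (n : ℝ) + 2 := Real.sq_sqrt (by positivity)
    have hs1 : 1 ≤ s := by
      rw [hs, Real.one_le_sqrt]
      have : (0 : ℝ) ≤ n := Nat.cast_nonneg n
      linarith
    have h6 : 4 * (X.dim : ℝ) * √((n : ℝ) + 1) + 1 ≤ (4 * X.dim + 1) * s := by
      have h7 : √((n : ℝ) + 1) ≤ s := Real.sqrt_le_sqrt (by linarith)
      have h8 : 4 * (X.dim : ℝ) * √((n : ℝ) + 1) ≤ 4 * (X.dim : ℝ) * s := by gcongr
      linarith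
    have h7 : 9 * b ^ (n + 1) ≤ 16 * ((4 * X.dim + 1) * s) * β := by
      refine h5.trans ?_
      gcongr
    have h8 : (2 * s ^ 2 * c * 9) * b ^ (n + 1) ≤
        (16 * ((4 * X.dim + 1) * s) * b) * b ^ (n + 1) := by
      calc (2 * s ^ 2 * c * 9) * b ^ (n + 1) = 2 * s ^ 2 * c * (9 * b ^ (n + 1)) := by ring
        _ ≤ 2 * s ^ 2 * c * (16 * ((4 * X.dim + 1) * s) * β) := by gcongr
        _ = 16 * ((4 * X.dim + 1) * s) * (2 * s ^ 2 * (c * β)) := by ring
        _ ≤ 16 * ((4 * X.dim + 1) * s) * (2 * s ^ 2 * r) := by gcongr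
        _ = 16 * ((4 * X.dim + 1) * s) * (2 * ((n : ℝ) + 1 + 1) * r) := by rw [hs2]; ring
        _ ≤ 16 * ((4 * X.dim + 1) * s) * b ^ (n + 1 + 1) := by gcongr
        _ = _ := by ring
    have h9 := le_of_mul_le_mul_right h8 (by positivity)
    have h10 : (9 * c * s) * (2 * s) ≤ (8 * (4 * X.dim + 1) * b) * (2 * s) := by
      calc (9 * c * s) * (2 * s) = 2 * s ^ 2 * c * 9 := by ring
        _ ≤ _ := h9
        _ = _ := by ring
    exact le_of_mul_le_mul_right h10 (by positivity)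
  refine ⟨hbound, fun X hpt => ⟨fun hX => ?_, ?_⟩, fun hall => ⟨fun hX => ?_, ?_⟩⟩
  · refine ⟨1, one_pos, Eventually.frequently ?_⟩
    filter_upwards [eventually_ge_atTop 1] with n hn
    obtain ⟨n, rfl⟩ := Nat.exists_eq_add_of_le' hn
    have h1 := hfull (pw X (n + 1)) (h.cls.pw_proj hX n)
    rw [one_mul]
    exact_mod_cast h1
  · rintro ⟨c, hc0, hf⟩
    by_contra hX
    set A : ℝ := 8 * (4 * X.dim + 1) * cohDim W X with hA
    obtain ⟨N, hN⟩ := exists_nat_gt ((A / (9 * c)) ^ 2)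
    obtain ⟨n, hn, hn2⟩ := (hf.and_eventually (eventually_ge_atTop (N + 1))).exists
    obtain ⟨n, rfl⟩ := Nat.exists_eq_add_of_le' (le_trans (Nat.le_add_left 1 N) hn2)
    have h2 := hkey X hpt hX n c hc0.le hn
    have h3 : (N : ℝ) ≤ n := by
      have : N ≤ n := by omega
      exact_mod_cast this
    have h4 : √((n : ℝ) + 2) ≤ A / (9 * c) := by
      rw [le_div_iff₀ (by positivity)]
      linarith
    have h5 : ((n : ℝ) + 2) ≤ (A / (9 * c)) ^ 2 := by
      rw [← Real.sq_sqrt (show (0 : ℝ) ≤ (n : ℝ) + 2 by positivity)]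
      exact pow_le_pow_left₀ (Real.sqrt_nonneg _) h4 2
    linarith
  · refine ⟨fun _ => 1, ⟨fun _ _ => one_pos, ?_⟩, fun Y => ?_⟩
    · simp only [one_mul]
      exact Real.tendsto_sqrt_atTop.comp Real.tendsto_log_atTop
    · rw [one_mul]
      exact_mod_cast hfull Y (hX Y)
  · rintro ⟨f, ⟨hf0, hf⟩, h'⟩ X
    by_contra hX
    have hb0 : cohDim W X ≠ 0 := fun h2 => hX (hzero X h2)
    have hb1 : (1 : ℝ) ≤ cohDim W X := by exact_mod_cast Nat.one_le_iff_ne_zero.2 hb0
    have hdim : ∀ n, (cohDim W (pw X (n + 1)) : ℝ) = (cohDim W X : ℝ) ^ (n + 1) := fun n => by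
      rw [cohDim_pw]
      push_cast
      rfl
    have hy : ∀ n, (1 : ℝ) ≤ cohDim W (pw X (n + 1)) := fun n => by
      rw [hdim]
      exact one_le_pow₀ hb1
    set A : ℝ := 8 * (4 * X.dim + 1) * cohDim W X with hA
    have hA0 : 0 ≤ A := by positivity
    have h2 : ∀ n : ℕ, 9 * f (cohDim W (pw X (n + 1))) * √((n : ℝ) + 2) ≤ A :=
      fun n => hkey X (hall X) hX n _ (hf0 _ (hy n)).le (h' _)
    have h3 : (1 : ℝ) < cohDim W X := by
      by_contra h3
      have h4 : (cohDim W X : ℝ) = 1 := le_antisymm (not_lt.1 h3) hb1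
      have h5 : ∀ n, (cohDim W (pw X (n + 1)) : ℝ) = 1 := fun n => by
        rw [hdim, h4, one_pow]
      have h7 := hf0 1 le_rfl
      obtain ⟨N, hN⟩ := exists_nat_gt ((A / (9 * f 1)) ^ 2)
      have h6 := h2 N
      rw [h5] at h6
      have h8 : √((N : ℝ) + 2) ≤ A / (9 * f 1) := by
        rw [le_div_iff₀ (by positivity)]
        linarith
      have h9 : ((N : ℝ) + 2) ≤ (A / (9 * f 1)) ^ 2 := by
        rw [← Real.sq_sqrt (show (0 : ℝ) ≤ (N : ℝ) + 2 by positivity)]
        exact pow_le_pow_left₀ (Real.sqrt_nonneg _) h8 2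
      linarith
    have hlog : 0 < Real.log (cohDim W X) := Real.log_pos h3
    obtain ⟨y0, hy0⟩ := eventually_atTop.1 (hf.eventually_gt_atTop
      (A / 9 * √(Real.log (cohDim W X))))
    obtain ⟨n, hn⟩ := pow_unbounded_of_one_lt y0 h3
    have h4 : y0 ≤ cohDim W (pw X (n + 1)) := by
      rw [hdim]
      refine hn.le.trans ?_
      exact pow_le_pow_right₀ hb1 (Nat.le_succ n)
    have h5 := hy0 _ h4
    have h6 := h2 n
    set F := f (cohDim W (pw X (n + 1))) with hF
    have hF0 : 0 < F := hf0 _ (hy n)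
    have h7 : Real.log (cohDim W (pw X (n + 1))) = (n + 1) * Real.log (cohDim W X) := by
      rw [hdim, Real.log_pow]
      push_cast
      ring
    rw [h7, Real.sqrt_mul (by positivity), ← mul_assoc] at h5
    have h8 : A / 9 < F * √((n : ℝ) + 1) :=
      lt_of_mul_lt_mul_right h5 (Real.sqrt_nonneg _)
    have h9 : F * √((n : ℝ) + 1) ≤ F * √((n : ℝ) + 2) :=
      mul_le_mul_of_nonneg_left (Real.sqrt_le_sqrt (by linarith)) hF0.le
    linarith

lemma allSpan_iff : AllSpan W X ↔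
    ∀ i, proj (W.isInternal X) i ∈ (KOp W X X 0 : Set (Module.End W.K (W.H X))) :=
  forall_congr' fun i => spanComponent_iff i

lemma allRational_iff : AllRational W X ↔ ∀ i, proj (W.isInternal X) i ∈ ratOp W X :=
  forall_congr' fun i => rationalComponent_iff i

/-- The share law for rational cycles. -/
theorem rational_share (W : WeilCohomology.{u, v} ops) :
    ShareLaws W (rationalDim W) (AllRational W) := by
  obtain ⟨lam, h⟩ := good_rat W
  have h1 : (AllRational W) = fun X => ∀ i, proj (W.isInternal X) i ∈ ratOp W X :=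
    funext fun X => propext allRational_iff
  rw [h1]
  exact h.shareLaws

/-- The law for one degree, for rational cycles. -/
theorem rational_degree (W : WeilCohomology.{u, v} ops) :
    DegreeLaws W (oneDegreeDim W) (AllRational W) := by
  obtain ⟨lam, h⟩ := good_rat W
  have h1 : (AllRational W) = fun X => ∀ i, proj (W.isInternal X) i ∈ ratOp W X :=
    funext fun X => propext allRational_iff
  rw [h1]
  exact h.degreeLaws

/-- The law for one degree, for combinations of cycles. -/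
theorem span_degree (W : WeilCohomology.{u, v} ops) :
    DegreeLaws W (oneDegreeDimK W) (AllSpan W) := by
  have h1 : (AllSpan W) = fun X =>
      ∀ i, proj (W.isInternal X) i ∈ (KOp W X X 0 : Set (Module.End W.K (W.H X))) :=
    funext fun X => propext allSpan_iff
  have h2 : oneDegreeDimK W = fun Y => largestRank (OneDegreeSummand (W.gr Y)
      (KOp W Y Y 0 : Set (Module.End W.K (W.H Y)))) := by
    funext Y
    have h3 : OneDegreeCombination (W.gr Y) (cycleOps W Y) = OneDegreeSummand (W.gr Y)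
        (KOp W Y Y 0 : Set (Module.End W.K (W.H Y))) := by
      funext e
      rw [OneDegreeCombination, span_cycleOps]
    rw [oneDegreeDimK, h3]
  rw [h1, h2]
  exact (good_kop W).degreeLaws

end Pool.Agent.Run7.H98.CR
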