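import Pool.Agent.Run7.h98.CR.Core
import Pool.Agent.Run7.h98.CR.Comb
import Pool.Agent.Run7.h98.CR.Defs

/-!
# The bounds
-/

set_option autoImplicit false

open CategoryTheory AlgebraicGeometry Finset TensorProduct Module

universe u v

namespace Pool.Agent.Run7.H98.CR

open Pool.Agent.H914 VarClass Obj WeilCohomology Pool.Agent.N190.CB Pool.Agent.N103.OC
  Pool.Agent.N536.HK Pool.Agent.Run7.H98.CX Pool.Agent.Run7.H634.WZ

section lin

variable {K V : Type*} [Field K] [AddCommGroup V] [Module K V] [FiniteDimensional K V]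
  (L : Type*) [Field L] [Algebra K L]

/-- Eigenvalues over `L`. -/
lemma eig_mem {f : Module.End K V} {w : L ⊗[K] V} (hw : w ≠ 0) {μ : L}
    (h : f.baseChange L w = μ • w) : Multiplicative.ofAdd μ ∈ eigM L f := by
  rw [eigM_eq]
  apply Multiset.mem_map_of_mem
  rw [Polynomial.mem_roots (LinearMap.charpoly_monic _).ne_zero]
  have h1 : Module.End.HasEigenvector (f.baseChange L) μ w :=
    ⟨Module.End.mem_eigenspace_iff.2 h, hw⟩
  exact (Module.End.hasEigenvalue_iff_isRoot_charpoly _ _).1
    (Module.End.hasEigenvalue_of_hasEigenvector h1)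

/-- Eigenvalues over `K`. -/
lemma eig_mem' {f : Module.End K V} {x : V} (hx : x ≠ 0) {μ : K} (h : f x = μ • x) :
    Multiplicative.ofAdd (algebraMap K L μ) ∈ eigM L f := by
  rw [eigM]
  apply Multiset.mem_map_of_mem
  rw [Polynomial.mem_aroots]
  refine ⟨(LinearMap.charpoly_monic _).ne_zero, ?_⟩
  have h1 : Module.End.HasEigenvector f μ x := ⟨Module.End.mem_eigenspace_iff.2 h, hx⟩
  have h2 := (Module.End.hasEigenvalue_iff_isRoot_charpoly _ _).1
    (Module.End.hasEigenvalue_of_hasEigenvector h1)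
  rw [Polynomial.aeval_algebraMap_apply, Polynomial.coe_aeval_eq_eval, h2.eq_zero, map_zero]

/-- Three different elements of a multiset. -/
lemma exists_three {α : Type*} {B : Multiset α} {x y z : α} (hx : x ∈ B) (hy : y ∈ B) (hz : z ∈ B)
    (h1 : y ≠ x) (h2 : z ≠ x) (h3 : z ≠ y) : ∃ R, B = x ::ₘ y ::ₘ z ::ₘ R := by
  obtain ⟨B1, rfl⟩ := Multiset.exists_cons_of_mem hx
  obtain ⟨B2, rfl⟩ := Multiset.exists_cons_of_mem ((Multiset.mem_cons.1 hy).resolve_left h1)
  have h4 := (Multiset.mem_cons.1 ((Multiset.mem_cons.1 hz).resolve_left h2)).resolve_left h3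
  obtain ⟨R, rfl⟩ := Multiset.exists_cons_of_mem h4
  exact ⟨R, rfl⟩

/-- The multiplicity of an eigenvalue. -/
lemma finrank_gen_le (f : Module.End K V) (μ : K) :
    finrank K (f.maxGenEigenspace μ) ≤
      (P (eigM L f)).coeff (Multiplicative.ofAdd (algebraMap K L μ)) := by
  classical
  rw [P_apply, eigM, Multiset.count_map_eq_count' _ _ Multiplicative.ofAdd.injective,
    Polynomial.count_roots, LinearMap.finrank_maxGenEigenspace_eq]
  exact Polynomial.le_rootMultiplicity_map (p := f.charpoly) (f := algebraMap K L)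
    ((Polynomial.map_ne_zero_iff (algebraMap K L).injective).2 (LinearMap.charpoly_monic f).ne_zero)
    μ

end lin

/-- A multiplier in general position. -/
lemma exists_t {L : Type*} [Field L] [CharZero L] {l : L} (hl : l ≠ 0) {d : ℕ} (hd : 0 < d)
    (j N : ℕ) : ∃ t : ℕ, ∀ p q : ℤ, |p| ≤ N → |q| ≤ N →
      l * (q : L) + (t : L) * ((2 * d : ℤ) * p + (j : ℤ) * q : ℤ) = 0 → p = 0 ∧ q = 0 := by
  classical
  set bad : Set ℕ := ⋃ p ∈ (Icc (-(N : ℤ)) N ×ˢ Icc (-(N : ℤ)) N : Finset (ℤ × ℤ)),
    {t : ℕ | ((2 * d : ℤ) * p.1 + (j : ℤ) * p.2) ≠ 0 ∧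
      l * (p.2 : L) + (t : L) * ((2 * d : ℤ) * p.1 + (j : ℤ) * p.2 : ℤ) = 0} with hbad
  have hfin : bad.Finite := by
    apply Set.Finite.biUnion (Finset.finite_toSet _)
    intro p _
    apply Set.Subsingleton.finite
    rintro t ⟨h1, h2⟩ t' ⟨_, h3⟩
    have h4 : (((2 * d : ℤ) * p.1 + (j : ℤ) * p.2 : ℤ) : L) ≠ 0 := by exact_mod_cast h1
    have h5 : (t : L) * (((2 * d : ℤ) * p.1 + (j : ℤ) * p.2 : ℤ) : L) =
        (t' : L) * (((2 * d : ℤ) * p.1 + (j : ℤ) * p.2 : ℤ) : L) := by
      linear_combination h2 - h3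
    exact_mod_cast mul_right_cancel₀ h4 h5
  obtain ⟨t, ht⟩ := hfin.exists_notMem
  refine ⟨t, fun p q hp hq h => ?_⟩
  by_cases h1 : (2 * d : ℤ) * p + (j : ℤ) * q = 0
  · rw [h1] at h
    have hq0 : q = 0 := by
      have h2 : l * (q : L) = 0 := by simpa using h
      exact_mod_cast (mul_eq_zero.1 h2).resolve_left hl
    rw [hq0, mul_zero, add_zero] at h1
    have h2 : (2 * d : ℤ) ≠ 0 := by omega
    exact ⟨(mul_eq_zero.1 h1).resolve_left h2, hq0⟩
  · exfalso
    apply ht
    rw [hbad, Set.mem_iUnion₂]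
    refine ⟨(p, q), ?_, h1, h⟩
    rw [mem_product, mem_Icc, mem_Icc]
    exact ⟨abs_le.1 hp, abs_le.1 hq⟩

variable {k : Type u} [Field k] {𝒱 : VarClass k} {ops : CycleOps 𝒱}
  {W : WeilCohomology.{u, v} ops} {X Y Z : 𝒱.Obj} {Op : ∀ X : 𝒱.Obj, Set (Module.End W.K (W.H X))}
  {lam : W.K →+ W.K}

/-! ### The share of the summands -/

/-- **The bound for the summands with Kunneth components in the class.** -/
theorem Good.share_bound (h : Good W Op lam) (hX : ¬ ∀ i, proj (W.isInternal X) i ∈ Op X) (n : ℕ)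
    {e : Module.End W.K (W.H (pw X (n + 1)))} (he : e * e = e) (heP : e ∈ KPo Op (pw X (n + 1))) :
    2 * (n + 1 + 1) * finrank W.K (LinearMap.range e) ^ 2 ≤ cohDim W X ^ (2 * (n + 1) + 1) := by
  by_cases hz : ∀ z ∈ KOp W X X 0, z * z = z → (∀ c ∈ KOp W X X 0, str W X (z * c) = 0) → z = 0
  · obtain ⟨C, hC⟩ := h.exists_C hz
    have h2 := h.rank_le hC n he heP
    have h3 := h2.trans (finrank_gen_zero (L := AlgebraicClosure W.K) _)
    rw [P_dl] at h3
    have h4 : ∃ x ∈ eigM (AlgebraicClosure W.K) (dg W X - C), x ≠ 1 := by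
      by_contra hcon
      push Not at hcon
      exact hX (h.proj_mem hC.1 (nilpotent_of_eig (AlgebraicClosure W.K) _ hcon))
    have h5 := walk_bound (Q := Multiplicative (AlgebraicClosure W.K)) (fun x r hr hx => by
      have h6 : (r : AlgebraicClosure W.K) * Multiplicative.toAdd x = 0 := by
        have h7 := congrArg Multiplicative.toAdd hx
        rwa [toAdd_pow, toAdd_one, nsmul_eq_mul] at h7
      have h7 : (r : AlgebraicClosure W.K) ≠ 0 := by exact_mod_cast hr.ne'
      exact Multiplicative.toAdd.injective ((mul_eq_zero.1 h6).resolve_left h7)) _ h4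
      (Nat.succ_pos n)
    rw [card_eigM] at h5
    refine le_trans ?_ h5
    gcongr
  · push Not at hz
    obtain ⟨z, hz, hzz, hz', hz0⟩ := hz
    have h1 := rank_le_zp hz hzz hz' n he (h.kp heP)
    have h2 : finrank W.K (LinearMap.range (1 - z)) + 1 ≤ cohDim W X := by
      have h3 : 1 ≤ finrank W.K (LinearMap.range z) := by
        rw [Nat.one_le_iff_ne_zero]
        intro h4
        exact hz0 (LinearMap.range_eq_bot.1 (Submodule.finrank_eq_zero.1 h4))
      have h4 : finrank W.K (LinearMap.range z) + finrank W.K (LinearMap.range (1 - z)) =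
          finrank W.K (W.H X) := by
        have h5 : z * (1 - z) = 0 := by rw [mul_sub, hzz, mul_one, sub_self]
        have h6 : (1 - z) * z = 0 := by rw [sub_mul, hzz, one_mul, sub_self]
        rw [← rank_add hzz (idem_compl hzz) h5 h6, add_sub_cancel]
        have h7 : LinearMap.range (1 : Module.End W.K (W.H X)) = ⊤ := LinearMap.range_id
        rw [h7, finrank_top]
      rw [cohDim]
      omega
    refine le_trans ?_ (pow_bound h2 (Nat.succ_pos n))
    gcongr

/-! ### One degree -/

lemma pow_aux2 (x k : ℕ) : x ^ (k + 1) + 2 * (k + 1) * x ^ k ≤ (x + 2) ^ (k + 1) := by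
  induction k with
  | zero => simp
  | succ k ih =>
    calc x ^ (k + 1 + 1) + 2 * (k + 1 + 1) * x ^ (k + 1)
        ≤ (x ^ (k + 1) + 2 * (k + 1) * x ^ k) * (x + 2) := by
          have : x ^ (k + 1 + 1) + 2 * (k + 1 + 1) * x ^ (k + 1) + 4 * (k + 1) * x ^ k =
            (x ^ (k + 1) + 2 * (k + 1) * x ^ k) * (x + 2) := by ring
          omega
      _ ≤ (x + 2) ^ (k + 1) * (x + 2) := Nat.mul_le_mul_right _ ih
      _ = (x + 2) ^ (k + 1 + 1) := (pow_succ _ _).symm

lemma two_le_rank {z : Module.End W.K (W.H X)} (hzz : z * z = z) (hz0 : z ≠ 0)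
    (hz : z ∈ KOp W X X 0) (h : ∀ c ∈ KOp W X X 0, str W X (z * c) = 0) :
    2 ≤ finrank W.K (LinearMap.range z) := by
  have h1 : str W X z = 0 := by
    have := h 1 (kop_one X)
    rwa [mul_one] at this
  rw [str_apply] at h1
  have hpz : par (W.isInternal X) * z = z * par (W.isInternal X) := sc_comm _ hz
  set o : Module.End W.K (W.H X) := (2⁻¹ : W.K) • (z - par (W.isInternal X) * z) with ho
  have h2 : (par (W.isInternal X) * z) * (par (W.isInternal X) * z) = z := by
    rw [mul_assoc, ← mul_assoc z, ← hpz, mul_assoc, hzz, ← mul_assoc, par_mul_par, one_mul]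
  have h3 : z * (par (W.isInternal X) * z) = par (W.isInternal X) * z := by
    rw [← mul_assoc, ← hpz, mul_assoc, hzz]
  have h4 : (par (W.isInternal X) * z) * z = par (W.isInternal X) * z := by
    rw [mul_assoc, hzz]
  have hoo : o * o = o := by
    rw [ho, smul_mul_smul_comm, mul_sub, sub_mul, sub_mul, hzz, h2, h3, h4]
    have h5 : z - par (W.isInternal X) * z - (par (W.isInternal X) * z - z) =
        (2 : W.K) • (z - par (W.isInternal X) * z) := by
      rw [two_smul]
      abel
    rw [h5, smul_smul]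
    congr 1
    norm_num
  have h5 : LinearMap.trace W.K (W.H X) o = 2⁻¹ * LinearMap.trace W.K (W.H X) z := by
    rw [ho, map_smul, map_sub, h1, sub_zero, smul_eq_mul]
  rw [Pool.Agent.N536.HK.trace_idem hoo, Pool.Agent.N536.HK.trace_idem hzz] at h5
  have h6 : (finrank W.K (LinearMap.range z) : W.K) =
      ((2 * finrank W.K (LinearMap.range o) : ℕ) : W.K) := by
    push_cast
    rw [h5]
    field_simp
  have h7 : finrank W.K (LinearMap.range z) = 2 * finrank W.K (LinearMap.range o) := by
    exact_mod_cast h6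
  have h8 : finrank W.K (LinearMap.range z) ≠ 0 := fun h8 =>
    hz0 (LinearMap.range_eq_bot.1 (Submodule.finrank_eq_zero.1 h8))
  omega

/-- The degree operator and `C` agree in a degree with a one dimensional cohomology. -/
lemma Good.point_eig (h : Good W Op lam) {C : Module.End W.K (W.H X)} (hC : Rep W Op lam X C)
    {i : ℕ} {v : W.H X} (hv : v ∈ W.gr X i) (hspan : ∀ y ∈ W.gr X i, ∃ r : W.K, y = r • v)
    {f : W.H X →ₗ[W.K] W.K} (hf : ∀ j, j ≠ i → ∀ y ∈ W.gr X j, f y = 0) (hfv : f v ≠ 0)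
    (hψ : f.smulRight v ∈ Op X) : C v = (i : W.K) • v := by
  obtain ⟨c, hc⟩ := hspan _ (kop_gr (h.kop hC.1) i hv)
  have h1 : f.smulRight v * C = c • f.smulRight v := by
    apply gr_ext (W.isInternal X)
    intro j y hy
    rw [Module.End.mul_apply, LinearMap.smul_apply, LinearMap.smulRight_apply,
      LinearMap.smulRight_apply]
    by_cases hji : j = i
    · subst hji
      obtain ⟨r, rfl⟩ := hspan y hy
      rw [map_smul, hc, map_smul, map_smul, map_smul, smul_eq_mul, smul_eq_mul, smul_eq_mul,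
        smul_smul]
      congr 1
      ring
    · rw [hf j hji _ (kop_gr (h.kop hC.1) j hy), hf j hji y hy, zero_smul, smul_zero]
  have h2 : f.smulRight v * dg W X = (i : W.K) • f.smulRight v := by
    apply gr_ext (W.isInternal X)
    intro j y hy
    rw [Module.End.mul_apply, LinearMap.smul_apply, LinearMap.smulRight_apply,
      LinearMap.smulRight_apply, scal_apply _ _ hy, map_smul, smul_eq_mul]
    by_cases hji : j = i
    · subst hji
      rw [smul_smul]
    · rw [hf j hji y hy, mul_zero, zero_smul, smul_zero]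
  have h3 := hC.2 _ hψ
  rw [h1, h2] at h3
  have h4 : (i : W.K) • f.smulRight v ∈ Op X := by
    have := h.cls.smul (i : ℚ) hψ
    rwa [Rat.cast_natCast] at this
  rw [h.lam_str h4, map_smul, map_smul, smul_eq_mul, smul_eq_mul] at h3
  have h5 : str W X (f.smulRight v) ≠ 0 := by
    have h6 : par (W.isInternal X) * f.smulRight v = (-1 : W.K) ^ i • f.smulRight v := by
      apply LinearMap.ext
      intro y
      rw [Module.End.mul_apply, LinearMap.smul_apply, LinearMap.smulRight_apply, map_smul, par,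
        scal_apply _ _ hv, smul_comm]
    rw [str_apply, h6, map_smul, LinearMap.trace_smulRight, smul_eq_mul]
    exact mul_ne_zero (pow_ne_zero _ (neg_ne_zero.2 one_ne_zero)) hfv
  rw [hc, ← mul_right_cancel₀ h5 h3]

lemma Good.point_zero (h : Good W Op lam) {C : Module.End W.K (W.H X)} (hC : Rep W Op lam X C)
    (hpt : HasPoint X) : (dg W X - C) 1 = 0 ∧ ∃ v ∈ W.gr X (2 * X.dim), v ≠ 0 ∧
      (dg W X - C) v = 0 := by
  obtain ⟨z, hz, hdeg⟩ := hpt
  have hfund : X.IsCyc 0 X.V.fundCycle := X.V.fundCycle_mem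
  have htr : W.tr X (W.cl X z) ≠ 0 := by
    rw [W.tr_cl hz]
    exact_mod_cast hdeg
  have hcz := W.cl_mem hz
  constructor
  · obtain ⟨ψ, hψ, h1⟩ := h.cls.rank hfund hz (by omega)
    rw [W.cl_fund] at h1
    have h2 : ψ = (W.tr X ∘ₗ LinearMap.mulLeft W.K (W.cl X z)).smulRight 1 := by
      apply LinearMap.ext
      intro y
      rw [h1]
      rfl
    rw [h2] at hψ
    have h3 := h.point_eig hC (f := W.tr X ∘ₗ LinearMap.mulLeft W.K (W.cl X z))
      (W.one_mem X) (fun y hy => by
      rw [W.gr_zero, Submodule.mem_span_singleton] at hy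
      obtain ⟨r, rfl⟩ := hy
      exact ⟨r, rfl⟩) (fun j hj y hy => W.tr_eq_zero (W.mul_mem hcz hy) (by omega))
      (by rw [LinearMap.comp_apply, LinearMap.mulLeft_apply, mul_one]; exact htr) hψ
    rw [LinearMap.sub_apply, h3, scal_apply _ _ (W.one_mem X), sub_self]
  · refine ⟨W.cl X z, hcz, fun h0 => htr (by rw [h0, map_zero]), ?_⟩
    obtain ⟨ψ, hψ, h1⟩ := h.cls.rank hz hfund (by omega)
    rw [W.cl_fund] at h1
    have h2 : ψ = (W.tr X).smulRight (W.cl X z) := by
      apply LinearMap.ext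
      intro y
      rw [h1, one_mul]
      rfl
    rw [h2] at hψ
    have h3 := h.point_eig hC hcz (fun y hy => by
      refine ⟨W.tr X y / W.tr X (W.cl X z), ?_⟩
      rw [← sub_eq_zero]
      apply W.nondeg
      intro b
      refine gr_induction (W.isInternal X) (p := fun b => W.tr X ((y - (W.tr X y /
        W.tr X (W.cl X z)) • W.cl X z) * b) = 0) ?_ ?_ b
      · intro l b hb
        have hmem : y - (W.tr X y / W.tr X (W.cl X z)) • W.cl X z ∈ W.gr X (2 * X.dim) :=
          Submodule.sub_mem _ hy (Submodule.smul_mem _ _ hcz)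
        by_cases hl : l = 0
        · subst hl
          rw [W.gr_zero, Submodule.mem_span_singleton] at hb
          obtain ⟨r, rfl⟩ := hb
          rw [mul_smul_comm, mul_one, map_smul, map_sub, map_smul, smul_eq_mul, smul_eq_mul,
            div_mul_cancel₀ _ htr, sub_self, mul_zero]
        · exact W.tr_eq_zero (W.mul_mem hmem hb) (by omega)
      · intro b b' hb hb'
        rw [mul_add, map_add, hb, hb', add_zero]) (fun j hj y hy => W.tr_eq_zero hy hj) htr hψ
    rw [LinearMap.sub_apply, h3, scal_apply _ _ hcz, sub_self]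

/-- The third letter. -/
lemma third_letter (L : Type*) [Field L] [Algebra W.K L] [IsAlgClosed L]
    {δ : Module.End W.K (W.H X)} (hgr : ∀ i, ∀ x ∈ W.gr X i, δ x ∈ W.gr X i)
    (hn : ¬ IsNilpotent δ) : ∃ j < 2 * X.dim + 1, ∃ l : L, l ≠ 0 ∧ ∃ w : L ⊗[W.K] W.H X, w ≠ 0 ∧
      (proj (W.isInternal X) j).baseChange L w = w ∧ ∀ t : W.K,
        (δ + t • dg W X).baseChange L w = (l + algebraMap W.K L t * (j : L)) • w := by
  obtain ⟨x, hx, hx1⟩ : ∃ x ∈ eigM L δ, x ≠ 1 := by
    by_contra hcon
    push Not at hcon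
    exact hn (nilpotent_of_eig L _ hcon)
  rw [eigM_eq] at hx
  obtain ⟨l, hl, rfl⟩ := Multiset.mem_map.1 hx
  have hl0 : l ≠ 0 := fun h0 => hx1 (by rw [h0]; rfl)
  rw [Polynomial.mem_roots (LinearMap.charpoly_monic _).ne_zero] at hl
  obtain ⟨v, hv⟩ := ((Module.End.hasEigenvalue_iff_isRoot_charpoly _ _).2 hl).exists_hasEigenvector
  have hv1 := Module.End.mem_eigenspace_iff.1 hv.1
  obtain ⟨j, hj, hw⟩ : ∃ j ∈ range (2 * X.dim + 1),
      (proj (W.isInternal X) j).baseChange L v ≠ 0 := by
    by_contra hcon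
    push Not at hcon
    apply hv.2
    have h1 : (∑ j ∈ range (2 * X.dim + 1), proj (W.isInternal X) j).baseChange L v = v := by
      rw [sum_proj (W.isInternal X) W_hbd, baseChange_one']
      rfl
    rw [← h1, ← LinearMap.baseChangeHom_apply, map_sum, LinearMap.sum_apply]
    exact Finset.sum_eq_zero hcon
  have hmul : ∀ f g : Module.End W.K (W.H X), ∀ w, f.baseChange L (g.baseChange L w) =
      (f * g).baseChange L w := fun f g w => by
    rw [Module.End.mul_eq_comp, LinearMap.baseChange_comp]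
    rfl
  have hcomm : δ * proj (W.isInternal X) j = proj (W.isInternal X) j * δ := by
    apply gr_ext (W.isInternal X)
    intro i y hy
    rw [Module.End.mul_apply, Module.End.mul_apply]
    by_cases hij : i = j
    · subst hij
      rw [proj_same _ hy, proj_same _ (hgr _ _ hy)]
    · rw [proj_ne _ hy hij, proj_ne _ (hgr _ _ hy) hij, map_zero]
  have hdg : dg W X * proj (W.isInternal X) j = (j : W.K) • proj (W.isInternal X) j := by
    apply LinearMap.ext
    intro y
    rw [Module.End.mul_apply, LinearMap.smul_apply, scal_apply _ _ (proj_mem _ _ _)]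
  refine ⟨j, mem_range.1 hj, l, hl0, _, hw, ?_, fun t => ?_⟩
  · rw [hmul, proj_mul_proj]
  · rw [hmul, add_mul, smul_mul_assoc, hdg, hcomm, LinearMap.baseChange_add,
      LinearMap.baseChange_smul, LinearMap.baseChange_smul, LinearMap.add_apply, ← hmul, hv1,
      map_smul, add_smul]
    congr 1
    rw [LinearMap.smul_apply, LinearMap.smul_apply, ← algebraMap_smul L t,
      ← algebraMap_smul L (j : W.K), smul_smul, map_natCast]

lemma dl_add (δ : Module.End W.K (W.H X)) (t : W.K) (n : ℕ) :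
    dl W (δ + t • dg W X) n = dl W δ n + t • dg W (pw X (n + 1)) := by
  induction n with
  | zero => rfl
  | succ n ih =>
    have h1 : t • dg W ((pw X (n + 1)).prod X) = extOp W (t • dg W (pw X (n + 1))) 1 +
        extOp W 1 (t • dg W X) := by
      rw [dg_prod, smul_add, ← extOp_smul_left, ← extOp_smul_right]
    have h2 : extOp W (dl W (δ + t • dg W X) n) 1 + extOp W 1 (δ + t • dg W X) =
        (extOp W (dl W δ n) 1 + extOp W 1 δ) + t • dg W ((pw X (n + 1)).prod X) := by
      rw [ih, extOp_add_left, extOp_add_right, h1]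
      abel
    exact h2

end Pool.Agent.Run7.H98.CR
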