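import Pool.Agent.Run7.h98.CR.One

/-!
# The bound for idempotents which act in one degree only
-/

set_option autoImplicit false

open CategoryTheory AlgebraicGeometry Finset TensorProduct Module

universe u v

namespace Pool.Agent.Run7.H98.CR

open Pool.Agent.H914 VarClass Obj WeilCohomology Pool.Agent.N190.CB Pool.Agent.N103.OC
  Pool.Agent.N536.HK Pool.Agent.Run7.H98.CX Pool.Agent.Run7.H634.WZ

variable {k : Type u} [Field k] {𝒱 : VarClass k} {ops : CycleOps 𝒱}
  {W : WeilCohomology.{u, v} ops} {X Y Z : 𝒱.Obj} {Op : ∀ X : 𝒱.Obj, Set (Module.End W.K (W.H X))}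
  {lam : W.K →+ W.K}

/-- The operators of the class which act in the degree `m` only. -/
def InDeg (Op : ∀ X : 𝒱.Obj, Set (Module.End W.K (W.H X))) (X : 𝒱.Obj) (m : ℕ) :
    Set (Module.End W.K (W.H X)) :=
  {a | a ∈ Op X ∧ ∀ j, j ≠ m → ∀ x ∈ W.gr X j, a x = 0}

lemma Good.inDeg_kp (h : Good W Op lam) {a : Module.End W.K (W.H X)} {m : ℕ}
    (ha : a ∈ InDeg Op X m) : a ∈ KPo Op X := by
  refine ⟨ha.1, fun i => ?_⟩
  by_cases him : i = m
  · have h1 : proj (W.isInternal X) i * a = a := by
      apply gr_ext (W.isInternal X)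
      intro j x hx
      rw [Module.End.mul_apply]
      by_cases hj : j = m
      · rw [him, ← hj, proj_same _ (kop_gr (h.kop ha.1) j hx)]
      · rw [ha.2 j hj x hx, map_zero]
    rw [h1]
    exact ha.1
  · have h1 : proj (W.isInternal X) i * a = 0 := by
      apply gr_ext (W.isInternal X)
      intro j x hx
      rw [Module.End.mul_apply, LinearMap.zero_apply]
      by_cases hj : j = m
      · rw [proj_ne _ (kop_gr (h.kop ha.1) j hx) (by rw [hj]; exact Ne.symm him)]
      · rw [ha.2 j hj x hx, map_zero]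
    rw [h1]
    exact h.cls.zero X

lemma Good.inDeg_dg (h : Good W Op lam) {a : Module.End W.K (W.H X)} {m : ℕ}
    (ha : a ∈ InDeg Op X m) : dg W X * a = (m : W.K) • a := by
  apply gr_ext (W.isInternal X)
  intro j x hx
  rw [Module.End.mul_apply, LinearMap.smul_apply]
  by_cases hj : j = m
  · rw [scal_apply _ _ (kop_gr (h.kop ha.1) j hx), hj]
  · rw [ha.2 j hj x hx, map_zero, smul_zero]

lemma Good.inDeg_mul (h : Good W Op lam) {a b : Module.End W.K (W.H X)} {m : ℕ}
    (ha : a ∈ InDeg Op X m) (hb : b ∈ Op X) : a * b ∈ InDeg Op X m :=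
  ⟨h.cls.mul ha.1 hb, fun j hj x hx => by
    rw [Module.End.mul_apply]
    exact ha.2 j hj _ (kop_gr (h.kop hb) j hx)⟩

/-- The bound by the multiplicity of an eigenvalue. -/
lemma Good.rank_le_one (h : Good W Op lam) {C : Module.End W.K (W.H X)} (hX : Rep W Op lam X C)
    (n m : ℕ) (t : W.K) {e : Module.End W.K (W.H (pw X (n + 1)))} (he : e * e = e)
    (heP : e ∈ InDeg Op (pw X (n + 1)) m) :
    finrank W.K (LinearMap.range e) ≤
      finrank W.K ((dl W (dg W X - C + t • dg W X) n).maxGenEigenspace (t * m)) := by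
  obtain ⟨Cn, hCn, h1⟩ := h.rep_pw hX n
  have hD : dl W (dg W X - C + t • dg W X) n - (t * m) • 1 =
      (dg W (pw X (n + 1)) - Cn) + (t • dg W (pw X (n + 1)) - (t * m) • 1) := by
    rw [dl_add, h1]
    abel
  have hle := rank_le_gen (Submodule.span W.K (InDeg Op (pw X (n + 1)) m))
    (D := dl W (dg W X - C + t • dg W X) n - (t * m) • 1) he (Submodule.subset_span heP)
    (span_mul_mem fun a ha => by
      have h2 : a * dg W (pw X (n + 1)) = (m : W.K) • a := by
        rw [← sc_comm _ (h.kop ha.1), h.inDeg_dg ha]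
      rw [hD, mul_add, mul_sub, mul_sub, mul_smul_comm, mul_smul_comm, mul_one, h2, smul_smul,
        sub_self, add_zero]
      exact Submodule.sub_mem _ (Submodule.smul_mem _ _ (Submodule.subset_span ha))
        (Submodule.subset_span (h.inDeg_mul ha hCn.1)))
    (span_mul_mem fun a ha => Submodule.subset_span (h.inDeg_mul ha heP.1))
    (span_trace_zero fun a ha => by
      rw [hD, add_mul, map_add, h.trace_zero hCn (h.inDeg_kp ha), zero_add, sub_mul,
        smul_mul_assoc, smul_mul_assoc, one_mul, h.inDeg_dg ha, smul_smul, sub_self, map_zero])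
  refine hle.trans (Submodule.finrank_mono ?_)
  intro x hx
  rw [End.mem_maxGenEigenspace] at hx ⊢
  obtain ⟨r, hr⟩ := hx
  rw [zero_smul, sub_zero] at hr
  exact ⟨r, hr⟩

lemma lin_aux {L : Type*} [Field L] {t l : L} {d j b c b' c' : ℕ}
    (h : (b : L) * (t * ((2 * d : ℕ) : L)) + c * (l + t * j) =
      (b' : L) * (t * ((2 * d : ℕ) : L)) + c' * (l + t * j)) :
    l * (((c : ℤ) - c' : ℤ) : L) +
      t * (((2 * d : ℤ) * ((b : ℤ) - b') + (j : ℤ) * ((c : ℤ) - c') : ℤ) : L) = 0 := by
  push_cast
  push_cast at h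
  linear_combination h

/-- **The bound for one degree.** -/
theorem Good.one_degree (h : Good W Op lam) (hpt : HasPoint X)
    (hX : ¬ ∀ i, proj (W.isInternal X) i ∈ Op X) (n m : ℕ)
    {e : Module.End W.K (W.H (pw X (n + 1)))} (he : e * e = e)
    (heP : e ∈ InDeg Op (pw X (n + 1)) m) :
    2 * (n + 1 + 1) * finrank W.K (LinearMap.range e) ≤ cohDim W X ^ (n + 1 + 1) := by
  by_cases hz : ∀ z ∈ KOp W X X 0, z * z = z → (∀ c ∈ KOp W X X 0, str W X (z * c) = 0) → z = 0
  · obtain ⟨C, hC⟩ := h.exists_C hz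
    set δ := dg W X - C with hδ
    have hδgr : ∀ i, ∀ x ∈ W.gr X i, δ x ∈ W.gr X i := fun i x hx => by
      rw [hδ, LinearMap.sub_apply]
      exact Submodule.sub_mem _ (sc_gr _ i hx) (kop_gr (h.kop hC.1) i hx)
    have hn : ¬ IsNilpotent δ := fun hn => hX (h.proj_mem hC.1 hn)
    obtain ⟨h0, v, hv, hv0, hv1⟩ := h.point_zero hC hpt
    rw [← hδ] at h0 hv1
    let L := AlgebraicClosure W.K
    obtain ⟨j, hj, l, hl, w, hw, hwj, hwt⟩ := third_letter L hδgr hn
    have hd : 0 < X.dim := by
      by_contra hd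
      have hj0 : j = 0 := by omega
      subst hj0
      apply hl
      have h2 := hwt 0
      rw [zero_smul, add_zero, map_zero, zero_mul, add_zero] at h2
      have h3 : δ * proj (W.isInternal X) 0 = 0 := by
        apply gr_ext (W.isInternal X)
        intro i x hx
        rw [Module.End.mul_apply, LinearMap.zero_apply]
        by_cases hi : i = 0
        · subst hi
          rw [proj_same _ hx]
          rw [W.gr_zero, Submodule.mem_span_singleton] at hx
          obtain ⟨r, rfl⟩ := hx
          rw [map_smul, h0, smul_zero]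
        · rw [proj_ne _ hx hi, map_zero]
      have h4 : δ.baseChange L w = 0 := by
        have h5 : δ.baseChange L ((proj (W.isInternal X) 0).baseChange L w) =
            (δ * proj (W.isInternal X) 0).baseChange L w := by
          rw [Module.End.mul_eq_comp, LinearMap.baseChange_comp]
          rfl
        rw [hwj, h3, LinearMap.baseChange_zero, LinearMap.zero_apply] at h5
        exact h5
      rw [h4] at h2
      exact (smul_eq_zero.1 h2.symm).resolve_right hw
    obtain ⟨t, ht⟩ := exists_t hl hd j (n + 1)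
    set F := δ + (t : W.K) • dg W X with hF
    have hx : (1 : Multiplicative L) ∈ eigM L F := by
      have h2 := eig_mem' L (f := F) (x := (1 : W.H X)) (μ := 0) (fun h1 => by
        have h3 : v = 0 := by rw [← one_mul v, h1, zero_mul]
        exact hv0 h3) (by
        rw [hF, LinearMap.add_apply, h0, zero_add, LinearMap.smul_apply,
          scal_apply _ _ (W.one_mem X), Nat.cast_zero, zero_smul, smul_zero])
      rwa [map_zero, ofAdd_zero] at h2
    have hy : Multiplicative.ofAdd ((t : L) * (2 * X.dim : ℕ)) ∈ eigM L F := by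
      have h2 := eig_mem' L (f := F) (x := v) (μ := (t : W.K) * (2 * X.dim : ℕ)) hv0 (by
        rw [hF, LinearMap.add_apply, hv1, zero_add, LinearMap.smul_apply, scal_apply _ _ hv,
          smul_smul])
      rwa [map_mul, map_natCast, map_natCast] at h2
    have hz' : Multiplicative.ofAdd (l + (t : L) * (j : L)) ∈ eigM L F := by
      have h2 := eig_mem L (f := F) hw (hwt (t : W.K))
      rwa [map_natCast] at h2
    have hgen : General (n + 1) (1 : Multiplicative L)
        (Multiplicative.ofAdd ((t : L) * (2 * X.dim : ℕ)))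
        (Multiplicative.ofAdd (l + (t : L) * (j : L))) := by
      intro a b c a' b' c' habc habc' heq
      have h2 := congrArg Multiplicative.toAdd heq
      simp only [one_pow, one_mul, toAdd_mul, toAdd_pow, toAdd_ofAdd, nsmul_eq_mul] at h2
      have h3 := ht ((b : ℤ) - b') ((c : ℤ) - c') (by rw [abs_le]; constructor <;> omega)
        (by rw [abs_le]; constructor <;> omega) (lin_aux h2)
      omega
    have hne1 : Multiplicative.ofAdd ((t : L) * (2 * X.dim : ℕ)) ≠ 1 := by
      intro h1
      have h2 := hgen 0 1 0 1 0 0 (by omega) rfl (by rw [h1]; simp)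
      omega
    have hne2 : Multiplicative.ofAdd (l + (t : L) * (j : L)) ≠ 1 := by
      intro h1
      have h2 := hgen 0 0 1 1 0 0 (by omega) rfl (by rw [h1]; simp)
      omega
    have hne3 : Multiplicative.ofAdd (l + (t : L) * (j : L)) ≠
        Multiplicative.ofAdd ((t : L) * (2 * X.dim : ℕ)) := by
      intro h1
      have h2 := hgen 0 0 1 0 1 0 (by omega) rfl (by rw [h1]; simp)
      omega
    obtain ⟨R, hR⟩ := exists_three hx hy hz' hne1 hne2 hne3
    have h2 := h.rank_le_one hC n m (t : W.K) he heP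
    rw [← hδ, ← hF] at h2
    have h3 := h2.trans (finrank_gen_le L _ _)
    rw [P_dl, hR] at h3
    have h4 := three_bound hgen R (Multiplicative.ofAdd (algebraMap W.K L ((t : W.K) * m)))
    rw [← hR, card_eigM] at h4
    rw [← hR] at h3
    calc 2 * (n + 1 + 1) * finrank W.K (LinearMap.range e)
        ≤ 2 * (n + 1 + 1) * (P (eigM L F) ^ (n + 1)).coeff
          (Multiplicative.ofAdd (algebraMap W.K L ((t : W.K) * m))) := by gcongr
      _ ≤ _ := h4
  · push Not at hz
    obtain ⟨z, hz, hzz, hz', hz0⟩ := hz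
    have h1 := rank_le_zp hz hzz hz' n he (h.kp (h.inDeg_kp heP))
    have h2 := two_le_rank hzz hz0 hz hz'
    have h3 : finrank W.K (LinearMap.range z) + finrank W.K (LinearMap.range (1 - z)) =
        finrank W.K (W.H X) := by
      have h5 : z * (1 - z) = 0 := by rw [mul_sub, hzz, mul_one, sub_self]
      have h6 : (1 - z) * z = 0 := by rw [sub_mul, hzz, one_mul, sub_self]
      rw [← rank_add hzz (idem_compl hzz) h5 h6, add_sub_cancel]
      have h7 : LinearMap.range (1 : Module.End W.K (W.H X)) = ⊤ := LinearMap.range_id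
      rw [h7, finrank_top]
    set x := finrank W.K (LinearMap.range (1 - z)) with hx
    have h4 : x + 2 ≤ cohDim W X := by
      rw [cohDim]
      omega
    calc 2 * (n + 1 + 1) * finrank W.K (LinearMap.range e)
        ≤ 2 * (n + 1 + 1) * x ^ (n + 1) := by gcongr
      _ ≤ x ^ (n + 1 + 1) + 2 * (n + 1 + 1) * x ^ (n + 1) := Nat.le_add_left _ _
      _ ≤ (x + 2) ^ (n + 1 + 1) := pow_aux2 x (n + 1)
      _ ≤ cohDim W X ^ (n + 1 + 1) := Nat.pow_le_pow_left h4 _

end Pool.Agent.Run7.H98.CR
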